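import Mathlib

/-!
# Weights of Fejér type which are exactly equidistributed modulo all small numbers
-/

set_option autoImplicit false

open Finset ZMod

namespace Pool.Agent.H11.PS

variable {M : ℕ} [NeZero M]

/-- the weight -/
noncomputable def fw (K : ℕ) (x : ZMod M) : ℝ :=
  ‖∑ t ∈ range K, stdAddChar (N := M) ((t : ZMod M) * x)‖ ^ 2 / (K : ℝ) ^ 2

theorem fw_nonneg (K : ℕ) (x : ZMod M) : 0 ≤ fw K x := by unfold fw; positivity

theorem fw_ge {H K : ℕ} (hK : 0 < K) (h : 6 * H * K ≤ M) (c : ℤ) (hc : |c| ≤ H) :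
    1 / 4 ≤ fw K (c : ZMod M) := by
  have hM : (0 : ℝ) < M := by exact_mod_cast Nat.pos_of_ne_zero (NeZero.ne M)
  have hK0 : (0 : ℝ) < K := by exact_mod_cast hK
  have h1 : ∀ t ∈ range K, 1 / 2 ≤ (stdAddChar (N := M) ((t : ZMod M) * (c : ZMod M))).re := by
    intro t ht
    rw [mem_range] at ht
    have e1 : ((t : ZMod M) * (c : ZMod M)) = (((t : ℤ) * c : ℤ) : ZMod M) := by push_cast; rfl
    rw [e1, stdAddChar_coe]
    have e2 : (2 * (Real.pi : ℂ) * Complex.I * (((t : ℤ) * c : ℤ) : ℂ) / (M : ℂ)) =
        ((2 * Real.pi * ((t : ℝ) * c) / M : ℝ) : ℂ) * Complex.I := by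
      push_cast
      ring
    rw [e2, Complex.exp_ofReal_mul_I_re]
    have h2 : |2 * Real.pi * ((t : ℝ) * c) / M| ≤ Real.pi / 3 := by
      rw [abs_div, abs_mul, abs_mul, abs_mul, abs_of_pos hM, abs_of_pos Real.pi_pos, abs_two,
        abs_of_nonneg (by positivity : (0 : ℝ) ≤ t), div_le_iff₀ hM]
      have h3 : |(c : ℝ)| ≤ H := by exact_mod_cast hc
      have h4 : (t : ℝ) ≤ K := by exact_mod_cast ht.le
      have h5 : 6 * (H : ℝ) * K ≤ M := by exact_mod_cast h
      have h6 : (t : ℝ) * |(c : ℝ)| ≤ K * H := by gcongr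
      have hpi := Real.pi_pos
      nlinarith
    rw [← Real.cos_pi_div_three, ← Real.cos_abs (2 * Real.pi * ((t : ℝ) * c) / M)]
    apply Real.cos_le_cos_of_nonneg_of_le_pi (abs_nonneg _) _ h2
    linarith [Real.pi_pos]
  have h2 : (K : ℝ) / 2 ≤ (∑ t ∈ range K, stdAddChar (N := M) ((t : ZMod M) * (c : ZMod M))).re := by
    rw [Complex.re_sum]
    calc (K : ℝ) / 2 = ∑ _t ∈ range K, (1 / 2 : ℝ) := by
          rw [sum_const, card_range, nsmul_eq_mul]
          ring
      _ ≤ _ := sum_le_sum h1
  have h3 := h2.trans (Complex.re_le_norm _)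
  unfold fw
  rw [div_le_div_iff₀ (by norm_num) (by positivity)]
  have h4 : ((K : ℝ) / 2) ^ 2 ≤ ‖∑ t ∈ range K, stdAddChar (N := M) ((t : ZMod M) * (c : ZMod M))‖ ^ 2 := by
    gcongr
  nlinarith

theorem fw_expand (K : ℕ) (x : ZMod M) :
    ((fw K x : ℝ) : ℂ) = (∑ q ∈ range K ×ˢ range K,
      stdAddChar (N := M) (((q.1 : ZMod M) - (q.2 : ZMod M)) * x)) / (K : ℂ) ^ 2 := by
  unfold fw
  push_cast
  congr 1
  rw [← Complex.mul_conj', map_sum, sum_mul_sum, sum_product]
  refine sum_congr rfl fun t _ => sum_congr rfl fun s _ => ?_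
  dsimp only
  rw [← AddChar.map_neg_eq_conj, ← AddChar.map_add_eq_mul]
  congr 1
  ring

variable {ι : Type} [Fintype ι] [DecidableEq ι]

/-- the product of the weights of the coordinates -/
noncomputable def W (K : ℕ) (x : ι → ZMod M) : ℝ := ∏ i, fw K (x i)

omit [DecidableEq ι] in
theorem W_nonneg (K : ℕ) (x : ι → ZMod M) : 0 ≤ W K x := prod_nonneg fun i _ => fw_nonneg K (x i)

/-- **Exact equidistribution.** -/
theorem sum_W {L K : ℕ} (hK : 0 < K) (hL : 0 < L) (hLK : K * L ≤ M) (G : (ι → ZMod M) → ℝ)
    (hG : ∀ x i, G (x + Pi.single i (L : ZMod M)) = G x) :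
    ∑ x, W K x * G x = (1 / (K : ℝ) ^ Fintype.card ι) * ∑ x, G x := by
  classical
  have hK0 : (K : ℂ) ≠ 0 := by exact_mod_cast hK.ne'
  -- the sums with a character
  have key : ∀ q ∈ Fintype.piFinset (fun _ : ι => range K ×ˢ range K),
      ∑ x : ι → ZMod M, (∏ i, stdAddChar (N := M) ((((q i).1 : ZMod M) - ((q i).2 : ZMod M)) * x i)) *
        (G x : ℂ) = if ∀ i, (q i).1 = (q i).2 then ∑ x, (G x : ℂ) else 0 := by
    intro q hq
    rw [Fintype.mem_piFinset] at hq
    split_ifs with h
    · refine sum_congr rfl fun x _ => ?_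
      rw [prod_eq_one, one_mul]
      intro i _
      rw [h i, sub_self, zero_mul, AddChar.map_zero_eq_one]
    · push Not at h
      obtain ⟨j, hj⟩ := h
      set a : ι → ZMod M := fun i => ((q i).1 : ZMod M) - ((q i).2 : ZMod M) with ha
      set S : ℂ := ∑ x : ι → ZMod M, (∏ i, stdAddChar (N := M) (a i * x i)) * (G x : ℂ) with hS
      have hS' : S = stdAddChar (N := M) (a j * (L : ZMod M)) * S := by
        rw [hS]
        conv_lhs => rw [← Equiv.sum_comp (Equiv.addRight (Pi.single j (L : ZMod M)))]
        rw [mul_sum]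
        refine sum_congr rfl fun x _ => ?_
        simp only [Equiv.coe_addRight]
        rw [hG x j]
        have e1 : ∏ i, stdAddChar (N := M) (a i * (x + Pi.single j (L : ZMod M) : ι → ZMod M) i) =
            (∏ i, stdAddChar (N := M) (a i * x i)) * stdAddChar (N := M) (a j * (L : ZMod M)) := by
          have e2 : ∀ i, stdAddChar (N := M) (a i * (x + Pi.single j (L : ZMod M) : ι → ZMod M) i) =
              stdAddChar (N := M) (a i * x i) *
                (if i = j then stdAddChar (N := M) (a j * (L : ZMod M)) else 1) := by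
            intro i
            rw [Pi.add_apply, mul_add, AddChar.map_add_eq_mul]
            congr 1
            by_cases hij : i = j
            · subst hij
              rw [Pi.single_eq_same, if_pos rfl]
            · rw [Pi.single_eq_of_ne hij, mul_zero, AddChar.map_zero_eq_one, if_neg hij]
          rw [prod_congr rfl fun i _ => e2 i, prod_mul_distrib, prod_ite_eq' univ j, if_pos (mem_univ j)]
        rw [e1]
        ring
      have hne : stdAddChar (N := M) (a j * (L : ZMod M)) ≠ 1 := by
        intro h1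
        have h2 : stdAddChar (N := M) (a j * (L : ZMod M)) = stdAddChar (N := M) 0 := by
          rw [h1, AddChar.map_zero_eq_one]
        have h3 := injective_stdAddChar h2
        have h4 : (((((q j).1 : ℤ) - (q j).2) * L : ℤ) : ZMod M) = 0 := by
          rw [← h3, ha]
          push_cast
          rfl
        rw [ZMod.intCast_zmod_eq_zero_iff_dvd] at h4
        have hqj := hq j
        rw [mem_product, mem_range, mem_range] at hqj
        have h5 : ((((q j).1 : ℤ) - (q j).2) * L) ≠ 0 := by
          apply mul_ne_zero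
          · intro h6
            apply hj
            have : ((q j).1 : ℤ) = (q j).2 := by linarith
            exact_mod_cast this
          · exact_mod_cast hL.ne'
        have h6 := Int.le_of_dvd (abs_pos.mpr h5) ((dvd_abs _ _).mpr h4)
        rw [abs_mul] at h6
        have h7 : |((q j).1 : ℤ) - (q j).2| < K := by
          rw [abs_lt]
          constructor <;> omega
        have h8 : |(L : ℤ)| = L := abs_of_nonneg (by positivity)
        rw [h8] at h6
        have h9 : |((q j).1 : ℤ) - (q j).2| * L < K * L := by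
          apply mul_lt_mul_of_pos_right h7
          exact_mod_cast hL
        have h10 : ((K * L : ℕ) : ℤ) ≤ M := by exact_mod_cast hLK
        push_cast at h10
        linarith
      have h1 : (1 - stdAddChar (N := M) (a j * (L : ZMod M))) * S = 0 := by
        rw [sub_mul, one_mul, ← hS', sub_self]
      rcases mul_eq_zero.mp h1 with h2 | h2
      · exact absurd (sub_eq_zero.mp h2).symm hne
      · exact h2
  have hcard : ((Fintype.piFinset (fun _ : ι => range K ×ˢ range K)).filter
      fun q => ∀ i, (q i).1 = (q i).2).card = K ^ Fintype.card ι := by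
    have e1 : (Fintype.piFinset (fun _ : ι => range K ×ˢ range K)).filter
        (fun q => ∀ i, (q i).1 = (q i).2) =
        (Fintype.piFinset (fun _ : ι => range K)).image (fun t i => (t i, t i)) := by
      ext q
      rw [mem_filter, Fintype.mem_piFinset, mem_image]
      constructor
      · rintro ⟨h1, h2⟩
        refine ⟨fun i => (q i).1, ?_, ?_⟩
        · rw [Fintype.mem_piFinset]
          intro i
          exact (mem_product.mp (h1 i)).1
        · funext i
          exact Prod.ext rfl (h2 i)
      · rintro ⟨t, ht, rfl⟩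
        rw [Fintype.mem_piFinset] at ht
        exact ⟨fun i => mem_product.mpr ⟨ht i, ht i⟩, fun i => rfl⟩
    rw [e1, card_image_of_injective, Fintype.card_piFinset]
    · simp
    · intro t t' h
      funext i
      exact congrArg Prod.fst (congrFun h i)
  have main : ((∑ x, W K x * G x : ℝ) : ℂ) = (((1 / (K : ℝ) ^ Fintype.card ι) * ∑ x, G x : ℝ) : ℂ) := by
    push_cast
    have e1 : ∀ x : ι → ZMod M, ((W K x : ℝ) : ℂ) * (G x : ℂ) =
        (1 / ((K : ℂ) ^ 2) ^ Fintype.card ι) * ∑ q ∈ Fintype.piFinset (fun _ : ι => range K ×ˢ range K),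
          (∏ i, stdAddChar (N := M) ((((q i).1 : ZMod M) - ((q i).2 : ZMod M)) * x i)) * (G x : ℂ) := by
      intro x
      unfold W
      push_cast
      rw [prod_congr rfl fun i _ => fw_expand K (x i), prod_div_distrib, prod_const, card_univ,
        prod_univ_sum, ← sum_mul]
      ring
    rw [sum_congr rfl fun x _ => e1 x, ← mul_sum, sum_comm, sum_congr rfl key, ← sum_filter, sum_const,
      hcard, nsmul_eq_mul]
    push_cast
    field_simp
    rw [← pow_mul, ← pow_mul, mul_comm 2]
  exact_mod_cast main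

end Pool.Agent.H11.PS
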