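import Mathlib
import Pool.Agent.H11.PS.Fejer
import Pool.Graph.R_seed8.Y722.HS.Box

/-!
# Independence modulo different primes, exponential moments
-/

set_option autoImplicit false

open Finset

namespace Pool.Agent.H11.PS

open Pool.Agent.Y722.HS (box IH red)

variable {M : ℕ} [NeZero M] {ι : Type} [Fintype ι] [DecidableEq ι]

/-- reduction of a vector modulo a divisor of `M` -/
def rd (p : ℕ) (x : ι → ZMod M) : ι → ZMod p := fun i => (x i).cast

omit [Fintype ι] [DecidableEq ι] [NeZero M] in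
theorem rd_add {p : ℕ} (hp : p ∣ M) (x v : ι → ZMod M) : rd p (x + v) = rd p x + rd p v := by
  funext i
  simp only [rd, Pi.add_apply]
  exact ZMod.cast_add hp _ _

omit [Fintype ι] [DecidableEq ι] [NeZero M] in
theorem rd_mul {p L : ℕ} (hp : p ∣ M) (v : ι → ZMod M) :
    rd p (fun i => (L : ZMod M) * v i) = fun i => (L : ZMod p) * rd p v i := by
  funext i
  simp only [rd]
  rw [ZMod.cast_mul hp, ZMod.cast_natCast hp]

omit [Fintype ι] [DecidableEq ι] [NeZero M] in
theorem rd_inv {p L : ℕ} (hp : p ∣ M) (hL : p ∣ L) (x v : ι → ZMod M) :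
    rd p (x + fun i => (L : ZMod M) * v i) = rd p x := by
  rw [rd_add hp, rd_mul hp]
  funext i
  simp only [Pi.add_apply]
  rw [(ZMod.natCast_eq_zero_iff L p).mpr hL, zero_mul, add_zero]

theorem step {p L : ℕ} [NeZero p] (hp : p ∣ M) (hco : Nat.Coprime L p) (F : (ι → ZMod M) → ℝ)
    (hF : ∀ x v : ι → ZMod M, F (x + fun i => (L : ZMod M) * v i) = F x) (f : (ι → ZMod p) → ℝ) :
    (p : ℝ) ^ Fintype.card ι * ∑ x, F x * f (rd p x) = (∑ x, F x) * ∑ z, f z := by
  classical
  have h1 : ∀ y : ι → ZMod p, ∑ x, F x * f (rd p x) =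
      ∑ x, F x * f (rd p x + fun i => (L : ZMod p) * y i) := by
    intro y
    set v : ι → ZMod M := fun i => ((y i).val : ZMod M) with hv
    have hv2 : rd p v = y := by
      funext i
      simp only [rd, hv]
      rw [ZMod.cast_natCast hp, ZMod.natCast_zmod_val]
    rw [← Equiv.sum_comp (Equiv.addRight (fun i => (L : ZMod M) * v i))]
    refine sum_congr rfl fun x _ => ?_
    simp only [Equiv.coe_addRight]
    rw [hF x v, rd_add hp, rd_mul hp, hv2]
  have h2 : ∑ y : ι → ZMod p, ∑ x, F x * f (rd p x) =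
      ∑ y : ι → ZMod p, ∑ x, F x * f (rd p x + fun i => (L : ZMod p) * y i) :=
    sum_congr rfl fun y _ => h1 y
  rw [sum_const, card_univ, nsmul_eq_mul, Fintype.card_fun, ZMod.card, sum_comm] at h2
  push_cast at h2
  rw [h2, sum_mul]
  refine sum_congr rfl fun x _ => ?_
  rw [← mul_sum]
  congr 1
  -- the bijection
  have hunit : IsUnit (L : ZMod p) := (ZMod.isUnit_iff_coprime L p).mpr hco
  obtain ⟨u, hu⟩ := hunit
  let e : (ι → ZMod p) ≃ (ι → ZMod p) :=
    { toFun := fun y => rd p x + fun i => (L : ZMod p) * y i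
      invFun := fun z => fun i => (↑(u⁻¹) : ZMod p) * (z i - rd p x i)
      left_inv := fun y => by
        funext i
        simp only [Pi.add_apply, add_sub_cancel_left]
        rw [← mul_assoc, ← hu, Units.inv_mul, one_mul]
      right_inv := fun z => by
        funext i
        simp only [Pi.add_apply]
        rw [← mul_assoc, ← hu, Units.mul_inv, one_mul, add_sub_cancel] }
  exact Equiv.sum_comp e f

/-- the mean value of a product of functions modulo different primes -/
theorem prod_le (P : Finset ℕ) (hP : ∀ p ∈ P, p.Prime) (hM : ∀ p ∈ P, p ∣ M)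
    (f : ∀ p : ℕ, (ι → ZMod p) → ℝ) (hf : ∀ p z, 0 ≤ f p z) (B : ℕ → ℝ) (hB : ∀ p, 0 ≤ B p)
    (hfB : ∀ p ∈ P, ∀ [NeZero p], ∑ z, f p z ≤ (p : ℝ) ^ Fintype.card ι * B p) :
    ∑ x : ι → ZMod M, ∏ p ∈ P, f p (rd p x) ≤ (M : ℝ) ^ Fintype.card ι * ∏ p ∈ P, B p := by
  classical
  induction P using Finset.induction_on with
  | empty =>
    simp only [prod_empty, mul_one, sum_const, card_univ, nsmul_eq_mul, mul_one]
    rw [Fintype.card_fun, ZMod.card]
    push_cast
    exact le_rfl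
  | insert p P hpP ih =>
    have ih' := ih (fun q hq => hP q (mem_insert_of_mem hq)) (fun q hq => hM q (mem_insert_of_mem hq))
      (fun q hq => hfB q (mem_insert_of_mem hq))
    have hpp := hP p (mem_insert_self p P)
    have hpM := hM p (mem_insert_self p P)
    have : NeZero p := ⟨hpp.ne_zero⟩
    set L := ∏ q ∈ P, q with hL
    have hco : Nat.Coprime L p := by
      rw [hL]
      refine Nat.Coprime.prod_left fun q hq => ?_
      rw [Nat.coprime_primes (hP q (mem_insert_of_mem hq)) hpp]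
      rintro rfl
      exact hpP hq
    have h1 := step hpM hco (fun x : ι → ZMod M => ∏ q ∈ P, f q (rd q x)) (fun x v => by
      refine prod_congr rfl fun q hq => ?_
      rw [rd_inv (hM q (mem_insert_of_mem hq)) (dvd_prod_of_mem _ hq)]) (f p)
    have h2 := hfB p (mem_insert_self p P)
    have hp0 : (0 : ℝ) < (p : ℝ) ^ Fintype.card ι := by
      have : (0 : ℝ) < p := by exact_mod_cast hpp.pos
      positivity
    have h3 : 0 ≤ ∑ x : ι → ZMod M, ∏ q ∈ P, f q (rd q x) :=
      sum_nonneg fun x _ => prod_nonneg fun q _ => hf q _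
    have e1 : ∑ x : ι → ZMod M, ∏ q ∈ insert p P, f q (rd q x) =
        ∑ x : ι → ZMod M, (∏ q ∈ P, f q (rd q x)) * f p (rd p x) := by
      refine sum_congr rfl fun x _ => ?_
      rw [prod_insert hpP, mul_comm]
    rw [e1, prod_insert hpP]
    have h4 : (p : ℝ) ^ Fintype.card ι * ∑ x : ι → ZMod M, (∏ q ∈ P, f q (rd q x)) * f p (rd p x) ≤
        (p : ℝ) ^ Fintype.card ι * ((M : ℝ) ^ Fintype.card ι * (B p * ∏ q ∈ P, B q)) := by
      rw [h1]
      calc (∑ x : ι → ZMod M, ∏ q ∈ P, f q (rd q x)) * ∑ z, f p z ≤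
          ((M : ℝ) ^ Fintype.card ι * ∏ q ∈ P, B q) * ((p : ℝ) ^ Fintype.card ι * B p) := by
            have h5 : 0 ≤ ∑ z, f p z := sum_nonneg fun z _ => hf p z
            have h6 : 0 ≤ (M : ℝ) ^ Fintype.card ι * ∏ q ∈ P, B q :=
              mul_nonneg (by positivity) (prod_nonneg fun q _ => hB q)
            exact mul_le_mul ih' h2 h5 h6
        _ = _ := by ring
    exact le_of_mul_le_mul_left h4 hp0

/-- the convexity of the exponential function -/
theorem exp_le_cosh {x b : ℝ} (hb : 0 < b) (hx : |x| ≤ b) :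
    Real.exp x ≤ Real.cosh b + x / b * Real.sinh b := by
  obtain ⟨h1, h2⟩ := abs_le.mp hx
  have c1 : 0 ≤ (b + x) / (2 * b) := by apply div_nonneg <;> linarith
  have c2 : 0 ≤ (b - x) / (2 * b) := by apply div_nonneg <;> linarith
  have c3 : (b + x) / (2 * b) + (b - x) / (2 * b) = 1 := by field_simp; ring
  have h3 := convexOn_exp.2 (Set.mem_univ b) (Set.mem_univ (-b)) c1 c2 c3
  simp only [smul_eq_mul] at h3
  have e1 : (b + x) / (2 * b) * b + (b - x) / (2 * b) * -b = x := by field_simp; ring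
  rw [e1] at h3
  refine h3.trans (le_of_eq ?_)
  rw [Real.cosh_eq, Real.sinh_eq]
  field_simp
  ring

theorem mgf_le {p : ℕ} [NeZero p] (h : (ι → ZMod p) → ℝ) (h0 : ∑ z, h z = 0) {b : ℝ} (hb : 0 < b)
    (hh : ∀ z, |h z| ≤ b) :
    ∑ z, Real.exp (h z) ≤ (p : ℝ) ^ Fintype.card ι * Real.exp (b ^ 2 / 2) := by
  calc ∑ z, Real.exp (h z) ≤ ∑ z : ι → ZMod p, (Real.cosh b + h z / b * Real.sinh b) :=
        sum_le_sum fun z _ => exp_le_cosh hb (hh z)
    _ = (p : ℝ) ^ Fintype.card ι * Real.cosh b := by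
        rw [sum_add_distrib, sum_const, card_univ, nsmul_eq_mul, Fintype.card_fun, ZMod.card,
          ← sum_mul, ← sum_div, h0]
        push_cast
        ring
    _ ≤ _ := by
        gcongr
        exact Real.cosh_le_exp_half_sq b

/-- the exponential moment -/
theorem exp_moment (P : Finset ℕ) (hP : ∀ p ∈ P, p.Prime) (hM : ∀ p ∈ P, p ∣ M)
    (h : ∀ p : ℕ, (ι → ZMod p) → ℝ) (h0 : ∀ p ∈ P, ∀ [NeZero p], ∑ z, h p z = 0) (b : ℕ → ℝ)
    (hb : ∀ p ∈ P, 0 < b p) (hh : ∀ p ∈ P, ∀ z, |h p z| ≤ b p) :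
    ∑ x : ι → ZMod M, Real.exp (∑ p ∈ P, h p (rd p x)) ≤
      (M : ℝ) ^ Fintype.card ι * Real.exp ((∑ p ∈ P, b p ^ 2) / 2) := by
  have h1 := prod_le (M := M) (ι := ι) P hP hM (fun p z => Real.exp (h p z))
    (fun p z => (Real.exp_pos _).le) (fun p => Real.exp (b p ^ 2 / 2)) (fun p => (Real.exp_pos _).le)
    (fun p hp _ => mgf_le (h p) (h0 p hp) (hb p hp) (hh p hp))
  simp only [← Real.exp_sum] at h1
  rw [sum_div]
  exact h1

/-- the moments -/
theorem pow_moment (P : Finset ℕ) (hP : ∀ p ∈ P, p.Prime) (hM : ∀ p ∈ P, p ∣ M)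
    (h : ∀ p : ℕ, (ι → ZMod p) → ℝ) (h0 : ∀ p ∈ P, ∀ [NeZero p], ∑ z, h p z = 0) (b : ℕ → ℝ)
    (hb : ∀ p ∈ P, 0 < b p) (hh : ∀ p ∈ P, ∀ z, |h p z| ≤ b p) {S : ℝ} (hS : 0 < S)
    (hbS : ∑ p ∈ P, b p ^ 2 ≤ S) (k : ℕ) (hk : 1 ≤ k) :
    ∑ x : ι → ZMod M, (∑ p ∈ P, h p (rd p x)) ^ (2 * k) ≤
      (M : ℝ) ^ Fintype.card ι * (2 * (7 * k * S) ^ k) := by
  have hk0 : (0 : ℝ) < k := by exact_mod_cast hk
  set s : ℝ := Real.sqrt (k / S) with hs
  have hs0 : 0 < s := Real.sqrt_pos.mpr (by positivity)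
  have hs2 : s ^ 2 = k / S := Real.sq_sqrt (by positivity)
  have h1 : ∀ e : ℝ, e ^ 2 = 1 → ∑ x : ι → ZMod M, Real.exp (e * s * ∑ p ∈ P, h p (rd p x)) ≤
      (M : ℝ) ^ Fintype.card ι * Real.exp (k / 2) := by
    intro e he
    have h2 := exp_moment (M := M) P hP hM (fun p z => e * s * h p z) (fun p hp _ => by
      rw [← mul_sum, h0 p hp, mul_zero]) (fun p => s * b p) (fun p hp => mul_pos hs0 (hb p hp))
      (fun p hp z => by
        rw [abs_mul, abs_mul, abs_of_pos hs0]
        have he1 : |e| = 1 := by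
          have := sq_abs e
          rw [he] at this
          nlinarith [abs_nonneg e]
        rw [he1, one_mul]
        exact mul_le_mul_of_nonneg_left (hh p hp z) hs0.le)
    simp only [← mul_sum] at h2
    refine h2.trans ?_
    gcongr
    calc ∑ p ∈ P, (s * b p) ^ 2 = s ^ 2 * ∑ p ∈ P, b p ^ 2 := by
          rw [mul_sum]
          exact sum_congr rfl fun p _ => by ring
      _ ≤ k / S * S := by rw [hs2]; gcongr
      _ = k := by field_simp
  have h2 : ∀ X : ℝ, X ^ (2 * k) ≤ ((2 * k).factorial / s ^ (2 * k)) *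
      (Real.exp (1 * s * X) + Real.exp (-1 * s * X)) := by
    intro X
    have h3 := Real.pow_div_factorial_le_exp (|s * X|) (abs_nonneg _) (2 * k)
    have h4 : Real.exp |s * X| ≤ Real.exp (1 * s * X) + Real.exp (-1 * s * X) := by
      rw [one_mul, show -1 * s * X = -(s * X) by ring]
      rcases le_total 0 (s * X) with h5 | h5
      · rw [abs_of_nonneg h5]
        have := (Real.exp_pos (-(s * X))).le
        linarith
      · rw [abs_of_nonpos h5]
        have := (Real.exp_pos (s * X)).le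
        linarith
    have h5 : |s * X| ^ (2 * k) = s ^ (2 * k) * X ^ (2 * k) := by
      rw [pow_mul, sq_abs, ← pow_mul, mul_pow]
    rw [h5] at h3
    have hf : (0 : ℝ) < (2 * k).factorial := by exact_mod_cast Nat.factorial_pos _
    have h6 := h3.trans h4
    rw [div_le_iff₀ hf] at h6
    rw [div_mul_eq_mul_div, le_div_iff₀ (by positivity)]
    linarith
  have h3 : ∑ x : ι → ZMod M, (∑ p ∈ P, h p (rd p x)) ^ (2 * k) ≤
      ((2 * k).factorial / s ^ (2 * k)) * ((M : ℝ) ^ Fintype.card ι * Real.exp (k / 2) +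
        (M : ℝ) ^ Fintype.card ι * Real.exp (k / 2)) := by
    refine (sum_le_sum fun x _ => h2 (∑ p ∈ P, h p (rd p x))).trans ?_
    rw [← mul_sum, sum_add_distrib]
    have a1 := h1 1 (by norm_num)
    have a2 := h1 (-1) (by norm_num)
    gcongr
  refine h3.trans ?_
  have h4 : ((2 * k).factorial : ℝ) ≤ (4 * k ^ 2) ^ k := by
    calc ((2 * k).factorial : ℝ) ≤ ((2 * k : ℕ) : ℝ) ^ (2 * k) := by exact_mod_cast Nat.factorial_le_pow _
      _ = _ := by
          push_cast
          rw [pow_mul]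
          ring
  have h5 : Real.exp (k / 2) ≤ (7 / 4) ^ k := by
    have h6 : Real.exp (1 / 2) ≤ 7 / 4 := by
      have h7 : Real.exp (1 / 2) ^ 2 ≤ (7 / 4) ^ 2 := by
        rw [← Real.exp_nat_mul]
        norm_num
        have := Real.exp_one_lt_d9
        linarith
      exact le_of_sq_le_sq h7 (by norm_num)
    calc Real.exp (k / 2) = Real.exp (1 / 2) ^ k := by
          rw [← Real.exp_nat_mul]
          congr 1
          ring
      _ ≤ _ := by gcongr
  have e1 : s ^ (2 * k) = (k / S) ^ k := by rw [pow_mul, hs2]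
  rw [e1]
  calc ((2 * k).factorial / (k / S) ^ k) * ((M : ℝ) ^ Fintype.card ι * Real.exp (k / 2) +
        (M : ℝ) ^ Fintype.card ι * Real.exp (k / 2)) ≤
      ((4 * k ^ 2) ^ k / (k / S) ^ k) * ((M : ℝ) ^ Fintype.card ι * (7 / 4) ^ k +
        (M : ℝ) ^ Fintype.card ι * (7 / 4) ^ k) := by gcongr
    _ = (M : ℝ) ^ Fintype.card ι * (2 * ((4 * k ^ 2) / (k / S) * (7 / 4)) ^ k) := by
        have e2 : ∀ a b c : ℝ, (a / b * c) ^ k = a ^ k / b ^ k * c ^ k := fun a b c => by
          rw [mul_pow, div_pow]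
        rw [e2]
        ring
    _ = _ := by
        have e3 : (4 * (k : ℝ) ^ 2) / (k / S) * (7 / 4) = 7 * k * S := by
          field_simp
        rw [e3]

end Pool.Agent.H11.PS
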