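import Mathlib
import Pool.Agent.H11.PS.Indep

/-!
# High moments over a box of integer vectors
-/

set_option autoImplicit false

open Finset

namespace Pool.Agent.H11.PS

open Pool.Agent.Y722.HS (IH red)

variable {ι : Type} [Fintype ι] [DecidableEq ι]

omit [Fintype ι] [DecidableEq ι] in
theorem rd_cast {M p : ℕ} (hp : p ∣ M) (c : ι → ℤ) :
    rd p (fun i => ((c i : ℤ) : ZMod M)) = red p c := by
  funext i
  simp only [rd, red]
  exact ZMod.cast_intCast hp _

/-- the sum over the box is bounded by the weighted sum over a full period -/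
theorem box_le {M : ℕ} [NeZero M] {H K : ℕ} (hH : 1 ≤ H) (hK : 0 < K) (h : 6 * H * K ≤ M)
    (F : (ι → ZMod M) → ℝ) (hF : ∀ x, 0 ≤ F x) :
    ∑ c ∈ Pool.Agent.Y722.HS.box ι H, F (fun i => ((c i : ℤ) : ZMod M)) ≤ 4 ^ Fintype.card ι * ∑ x, W K x * F x := by
  classical
  have h1 : ∀ c ∈ Pool.Agent.Y722.HS.box ι H, F (fun i => ((c i : ℤ) : ZMod M)) ≤
      4 ^ Fintype.card ι * (W K (fun i => ((c i : ℤ) : ZMod M)) * F (fun i => ((c i : ℤ) : ZMod M))) := by
    intro c hc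
    rw [Pool.Agent.Y722.HS.box, Fintype.mem_piFinset] at hc
    have h2 : (1 / 4 : ℝ) ^ Fintype.card ι ≤ W K (fun i => ((c i : ℤ) : ZMod M)) := by
      unfold W
      rw [← card_univ, ← prod_const]
      refine prod_le_prod (fun i _ => by norm_num) fun i _ => fw_ge hK h (c i) ?_
      have := hc i
      unfold IH at this
      rw [mem_Icc] at this
      rw [abs_le]
      exact this
    have h3 := hF (fun i => ((c i : ℤ) : ZMod M))
    calc F (fun i => ((c i : ℤ) : ZMod M)) =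
        4 ^ Fintype.card ι * ((1 / 4 : ℝ) ^ Fintype.card ι * F (fun i => ((c i : ℤ) : ZMod M))) := by
          rw [← mul_assoc, ← mul_pow]
          norm_num
      _ ≤ _ := by gcongr
  refine (sum_le_sum h1).trans ?_
  rw [← mul_sum]
  refine mul_le_mul_of_nonneg_left ?_ (by positivity)
  have hinj : Set.InjOn (fun (c : ι → ℤ) => (fun i => ((c i : ℤ) : ZMod M))) (Pool.Agent.Y722.HS.box ι H : Set (ι → ℤ)) := by
    intro c hc d hd hcd
    rw [mem_coe, Pool.Agent.Y722.HS.box, Fintype.mem_piFinset] at hc hd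
    funext i
    have h2 : ((c i : ℤ) : ZMod M) = ((d i : ℤ) : ZMod M) := congrFun hcd i
    rw [ZMod.intCast_eq_intCast_iff_dvd_sub] at h2
    have hc' := hc i
    have hd' := hd i
    unfold IH at hc' hd'
    rw [mem_Icc] at hc' hd'
    have hM : 2 * H < M := by
      have : 6 * H * 1 ≤ 6 * H * K := Nat.mul_le_mul_left _ hK
      omega
    by_contra hne
    have h3 : d i - c i ≠ 0 := fun h => hne (by linarith)
    have h4 := Int.le_of_dvd (abs_pos.mpr h3) ((dvd_abs _ _).mpr h2)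
    have h5 : |d i - c i| ≤ 2 * H := by
      rw [abs_le]
      constructor <;> linarith [hc'.1, hc'.2, hd'.1, hd'.2]
    have h6 : (2 * (H : ℤ)) < M := by exact_mod_cast hM
    linarith
  rw [← sum_image (f := fun x => W K x * F x) hinj]
  exact sum_le_sum_of_subset_of_nonneg (subset_univ _) fun x _ _ => mul_nonneg (W_nonneg K x) (hF x)

/-- **The moments over a box.** -/
theorem box_moment (P : Finset ℕ) (hP : ∀ p ∈ P, p.Prime) {k H Q : ℕ} (hk : 1 ≤ k) (hH : 1 ≤ H)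
    (hPQ : ∀ p ∈ P, p ≤ Q) (hQ : Q ^ (2 * k) ≤ 6 * H)
    (h : ∀ p : ℕ, (ι → ZMod p) → ℝ) (h0 : ∀ p ∈ P, ∀ [NeZero p], ∑ z, h p z = 0) (b : ℕ → ℝ)
    (hb : ∀ p ∈ P, 0 < b p) (hh : ∀ p ∈ P, ∀ z, |h p z| ≤ b p) {S : ℝ} (hS : 0 < S)
    (hbS : ∑ p ∈ P, b p ^ 2 ≤ S) :
    ∑ c ∈ Pool.Agent.Y722.HS.box ι H, (∑ p ∈ P, h p (red p c)) ^ (2 * k) ≤
      (24 * H : ℝ) ^ Fintype.card ι * (2 * (7 * k * S) ^ k) := by
  classical
  set K : ℕ := ∏ p ∈ P, p with hKdef
  have hK : 0 < K := Finset.prod_pos fun p hp => (hP p hp).pos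
  set M : ℕ := 6 * H * K with hMdef
  have hM0 : 0 < M := by positivity
  have : NeZero M := ⟨hM0.ne'⟩
  have hdvd : ∀ p ∈ P, p ∣ M := fun p hp => (dvd_prod_of_mem (fun p => p) hp).mul_left _
  have h1 := box_le (M := M) (ι := ι) hH hK le_rfl (fun x => (∑ p ∈ P, h p (rd p x)) ^ (2 * k))
    (fun x => by rw [pow_mul]; positivity)
  have e1 : ∑ c ∈ Pool.Agent.Y722.HS.box ι H, (fun x : ι → ZMod M => (∑ p ∈ P, h p (rd p x)) ^ (2 * k))
      (fun i => ((c i : ℤ) : ZMod M)) = ∑ c ∈ Pool.Agent.Y722.HS.box ι H, (∑ p ∈ P, h p (red p c)) ^ (2 * k) := by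
    refine sum_congr rfl fun c _ => ?_
    simp only
    congr 1
    refine sum_congr rfl fun p hp => ?_
    rw [rd_cast (hdvd p hp)]
  rw [e1] at h1
  -- the weighted sum is the plain sum
  have h2 : ∑ x : ι → ZMod M, W K x * (∑ p ∈ P, h p (rd p x)) ^ (2 * k) =
      (1 / (K : ℝ) ^ Fintype.card ι) * ∑ x : ι → ZMod M, (∑ p ∈ P, h p (rd p x)) ^ (2 * k) := by
    have e2 : ∀ x : ι → ZMod M, (∑ p ∈ P, h p (rd p x)) ^ (2 * k) =
        ∑ t ∈ Fintype.piFinset (fun _ : Fin (2 * k) => P), ∏ j, h (t j) (rd (t j) x) :=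
      fun x => Finset.sum_pow' _ _ _
    have e3 : ∀ t ∈ Fintype.piFinset (fun _ : Fin (2 * k) => P),
        ∑ x : ι → ZMod M, W K x * ∏ j, h (t j) (rd (t j) x) =
          (1 / (K : ℝ) ^ Fintype.card ι) * ∑ x : ι → ZMod M, ∏ j, h (t j) (rd (t j) x) := by
      intro t ht
      rw [Fintype.mem_piFinset] at ht
      have hL : ∏ j, t j ≤ 6 * H := by
        calc ∏ j, t j ≤ ∏ _j : Fin (2 * k), Q := Finset.prod_le_prod' fun j _ => hPQ _ (ht j)
          _ = Q ^ (2 * k) := by simp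
          _ ≤ _ := hQ
      refine sum_W (L := ∏ j, t j) hK (Finset.prod_pos fun j _ => (hP _ (ht j)).pos) ?_ _ ?_
      · rw [hMdef, mul_comm]
        exact Nat.mul_le_mul_right _ hL
      · intro x i
        refine prod_congr rfl fun j _ => ?_
        congr 1
        have hd : t j ∣ ∏ j, t j := dvd_prod_of_mem _ (mem_univ j)
        rw [rd_add (hdvd _ (ht j))]
        funext l
        simp only [Pi.add_apply, rd]
        have : ((Pi.single i ((∏ j, t j : ℕ) : ZMod M) : ι → ZMod M) l).cast = (0 : ZMod (t j)) := by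
          by_cases hl : l = i
          · subst hl
            rw [Pi.single_eq_same, ZMod.cast_natCast (hdvd _ (ht j))]
            exact (ZMod.natCast_eq_zero_iff _ _).mpr hd
          · rw [Pi.single_eq_of_ne hl, ZMod.cast_zero]
        rw [this, add_zero]
    simp only [e2, mul_sum]
    rw [sum_comm]
    conv_rhs => rw [sum_comm]
    refine sum_congr rfl fun t ht => ?_
    rw [e3 t ht, mul_sum]
  have h3 := pow_moment (M := M) (ι := ι) P hP hdvd h h0 b hb hh hS hbS k hk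
  have hKr : (0 : ℝ) < K := by exact_mod_cast hK
  calc ∑ c ∈ Pool.Agent.Y722.HS.box ι H, (∑ p ∈ P, h p (red p c)) ^ (2 * k) ≤
      4 ^ Fintype.card ι * ∑ x : ι → ZMod M, W K x * (∑ p ∈ P, h p (rd p x)) ^ (2 * k) := h1
    _ = 4 ^ Fintype.card ι * ((1 / (K : ℝ) ^ Fintype.card ι) *
        ∑ x : ι → ZMod M, (∑ p ∈ P, h p (rd p x)) ^ (2 * k)) := by rw [h2]
    _ ≤ 4 ^ Fintype.card ι * ((1 / (K : ℝ) ^ Fintype.card ι) *
        ((M : ℝ) ^ Fintype.card ι * (2 * (7 * k * S) ^ k))) := by gcongr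
    _ = _ := by
        rw [hMdef]
        push_cast
        rw [mul_pow (6 * (H : ℝ)) (K : ℝ), show (24 * (H : ℝ)) = 4 * (6 * H) by ring,
          mul_pow 4 (6 * (H : ℝ))]
        field_simp

end Pool.Agent.H11.PS
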