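import Mathlib
import Pool.Agent.H11.PS.Exc
import Pool.Graph.R_pool_sql_team_seeded_63374d34.N534.TL.Main2

/-!
# The L-function of a member outside of the exceptional set
-/

set_option autoImplicit false

namespace Pool.Agent.H11.PS

open Finset Pool.Agent.Y722.HS Pool.Agent.Y722.LS Pool.Agent.N534.TL
open Pool.Agent.H11.TC (blk mem_blk card_blk gp grid gp_re card_grid exists_grid cpow_lip log_div_le)

variable {m : ℕ} {ι : Type} [Fintype ι] [DecidableEq ι]

/-- the mean value modulo a prime -/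
noncomputable def av (g : ∀ p : ℕ, (ι → ZMod p) → ℝ) (p : ℕ) : ℝ :=
  if h : p.Prime then (haveI := Fact.mk h; EM p (g p)) else 0

theorem av_eq (g : ∀ p : ℕ, (ι → ZMod p) → ℝ) (p : ℕ) [Fact p.Prime] : av g p = EM p (g p) := by
  unfold av
  rw [dif_pos (Fact.out : p.Prime)]

/-- the centred function -/
noncomputable def cen (g : ∀ p : ℕ, (ι → ZMod p) → ℝ) (p : ℕ) (x : ι → ZMod p) : ℝ := g p x - av g p

theorem EM_const' (p : ℕ) [NeZero p] (t : ℝ) : EM p (fun _ : ι → ZMod p => t) = t := by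
  unfold EM
  rw [sum_const, card_univ, nsmul_eq_mul, Fintype.card_fun, ZMod.card]
  have : (0 : ℝ) < (p : ℝ) ^ Fintype.card ι := by
    have : (0 : ℝ) < p := by exact_mod_cast Nat.pos_of_ne_zero (NeZero.ne p)
    positivity
  push_cast
  field_simp

theorem EM_abs_le (p : ℕ) [NeZero p] {g g' : (ι → ZMod p) → ℝ} (h : ∀ x, |g x| ≤ g' x) :
    |EM p g| ≤ EM p g' := by
  unfold EM
  have hp : (0 : ℝ) < (p : ℝ) ^ Fintype.card ι := by
    have : (0 : ℝ) < p := by exact_mod_cast Nat.pos_of_ne_zero (NeZero.ne p)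
    positivity
  rw [abs_div, abs_of_pos hp]
  gcongr
  exact (abs_sum_le_sum_abs _ _).trans (sum_le_sum fun x _ => h x)

/-- the centred functions are good -/
theorem good_cen {g : ∀ p : ℕ, (ι → ZMod p) → ℝ} {β : ℝ} {J : ℕ} (hβ : 0 ≤ β)
    (hg : ∀ j < J, ∀ p ∈ blk j, ∀ z, |g p z| ≤ β / p) : Good (cen g) (2 * β) J := by
  constructor
  · intro j hj p hp inst
    have hpp := (mem_blk.mp hp).2
    haveI := Fact.mk hpp
    unfold cen
    rw [sum_sub_distrib, sum_const, card_univ, nsmul_eq_mul, Fintype.card_fun, ZMod.card, av_eq, EM]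
    have : (0 : ℝ) < (p : ℝ) ^ Fintype.card ι := by
      have : (0 : ℝ) < p := by exact_mod_cast hpp.pos
      positivity
    push_cast
    field_simp
    ring
  · intro j hj p hp z
    have hpp := (mem_blk.mp hp).2
    haveI := Fact.mk hpp
    have hp0 : (0 : ℝ) < p := by exact_mod_cast hpp.pos
    have h1 := hg j hj p hp z
    have h2 : |av g p| ≤ β / p := by
      rw [av_eq]
      refine (EM_abs_le p (g' := fun _ => β / p) fun x => hg j hj p hp x).trans ?_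
      rw [EM_const']
    unfold cen
    have h3 := abs_sub (g p z) (av g p)
    have h4 : (2 : ℝ) ^ j ≤ p := by exact_mod_cast (mem_blk.mp hp).1.1.le
    calc |g p z - av g p| ≤ β / p + β / p := by linarith
      _ = 2 * β / p := by ring
      _ ≤ 2 * β / 2 ^ j := by gcongr

theorem blocksR (h : ℕ → ℝ) (j0 J : ℕ) (hJ : j0 ≤ J) :
    ∑ p ∈ (Ioc (2 ^ j0) (2 ^ J)).filter Nat.Prime, h p = ∑ j ∈ Ico j0 J, ∑ p ∈ blk j, h p := by
  induction J, hJ using Nat.le_induction with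
  | base => simp
  | succ n hn ih =>
    rw [sum_Ico_succ_top hn, ← ih]
    unfold blk
    rw [sum_filter, sum_filter, sum_filter,
      Finset.sum_Ioc_consecutive _ (Nat.pow_le_pow_right (by norm_num) hn)
        (Nat.pow_le_pow_right (by norm_num) (Nat.le_succ n))]

/-- the normalised trace at the primes of good reduction, without the expected mean -/
noncomputable def hN (f : ι → MvPolynomial (Fin (2 * m + 2)) ℤ) (P : MvPolynomial ι ℤ) (p0 p : ℕ)
    (x : ι → ZMod p) : ℝ := (1 - BB P p0 p x) * NN f p0 p x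

/-- the contribution of the primes of bad reduction -/
noncomputable def gB (P : MvPolynomial ι ℤ) (p0 : ℕ) (β : ℝ) (p : ℕ) (x : ι → ZMod p) : ℝ :=
  β / p * BB P p0 p x

theorem BB_mem (P : MvPolynomial ι ℤ) (p0 p : ℕ) (x : ι → ZMod p) :
    BB P p0 p x = 0 ∨ BB P p0 p x = 1 := by
  unfold BB
  split_ifs
  · right; rfl
  · left; rfl

theorem gB_nonneg (P : MvPolynomial ι ℤ) (p0 : ℕ) {β : ℝ} (hβ : 0 ≤ β) (p : ℕ) (x : ι → ZMod p) :
    0 ≤ gB P p0 β p x := by
  unfold gB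
  rcases BB_mem P p0 p x with h | h <;> rw [h] <;> positivity

theorem gB_le (P : MvPolynomial ι ℤ) (p0 : ℕ) {β : ℝ} (hβ : 0 ≤ β) (p : ℕ) (x : ι → ZMod p) :
    gB P p0 β p x ≤ β / p := by
  unfold gB
  have : 0 ≤ β / (p : ℝ) := by positivity
  rcases BB_mem P p0 p x with h | h <;> rw [h]
  · simpa using this
  · simp

section
variable {f : ι → MvPolynomial (Fin (2 * m + 2)) ℤ} {p0 : ℕ} {CZ : ℝ}

theorem av_hN {P : MvPolynomial ι ℤ} {A : ℝ} (hF : Fam A (NN f p0) (BB P p0)) (p : ℕ) (hp : p.Prime) :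
    |av (hN f P p0) p| ≤ 3 * A * (1 / (p : ℝ) ^ ((3 : ℝ) / 2)) := by
  haveI := Fact.mk hp
  have hA := hF.A0
  have hp1 : (1 : ℝ) ≤ p := by exact_mod_cast hp.one_lt.le
  have hp0 : (0 : ℝ) < p := by linarith
  rw [av_eq]
  have e1 : EM p (hN f P p0 p) = EM p (fun c => NN f p0 p c) -
      EM p (fun c => BB P p0 p c * NN f p0 p c) := by
    unfold EM hN
    rw [← sub_div, ← sum_sub_distrib]
    congr 1
    exact sum_congr rfl fun x _ => by ring
  have h1 := hF.mean p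
  have h2 : |EM p (fun c => BB P p0 p c * NN f p0 p c)| ≤ (2 + 0) * A * (1 / (p : ℝ) ^ ((3 : ℝ) / 2)) := by
    refine (EM_abs_le p (g' := fun c => bb (NN f p0) (BB P p0) 0 p c) fun x => ?_).trans (hF.EM_bb le_rfl p)
    unfold bb
    rw [abs_mul, abs_of_nonneg (hF.nonneg p x), zero_div, add_zero]
  have h3 : A / (p : ℝ) ^ 2 ≤ A * (1 / (p : ℝ) ^ ((3 : ℝ) / 2)) := by
    rw [div_eq_mul_one_div]
    gcongr
    rw [← Real.rpow_natCast]
    apply Real.rpow_le_rpow_of_exponent_le hp1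
    norm_num
  rw [e1]
  have h4 := abs_sub (EM p (fun c => NN f p0 p c)) (EM p (fun c => BB P p0 p c * NN f p0 p c))
  linarith

theorem av_gB {P : MvPolynomial ι ℤ} {A : ℝ} (hF : Fam A (NN f p0) (BB P p0)) {β : ℝ} (hβ : 0 ≤ β)
    (p : ℕ) (hp : p.Prime) :
    av (gB P p0 β) p ≤ β * A * (1 / (p : ℝ) ^ ((3 : ℝ) / 2)) := by
  haveI := Fact.mk hp
  have hA := hF.A0
  have hp1 : (1 : ℝ) ≤ p := by exact_mod_cast hp.one_lt.le
  have hp0 : (0 : ℝ) < p := by linarith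
  rw [av_eq]
  unfold gB
  rw [EM_mul]
  have h1 := hF.bad p
  calc β / p * EM p (fun c => BB P p0 p c) ≤ β / p * (A / p) := by gcongr
    _ = β * A * (1 / (p : ℝ) ^ 2) := by ring
    _ ≤ _ := by
        gcongr
        rw [← Real.rpow_natCast]
        apply Real.rpow_le_rpow_of_exponent_le hp1
        norm_num

/-- the factor of the zeta function -/
theorem re_cpow_u {p : ℕ} (hp : p.Prime) (ε τ : ℝ) :
    ((p : ℂ) ^ (-((ε : ℂ) + τ * Complex.I))).re =
      (p : ℝ) ^ (-ε) * ((p : ℂ) ^ (-((τ : ℂ) * Complex.I))).re := by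
  have hp0 : (0 : ℝ) < p := by exact_mod_cast hp.pos
  have hpc : (p : ℂ) ≠ 0 := by exact_mod_cast hp.ne_zero
  have e2 : (p : ℂ) ^ (-((ε : ℂ) + τ * Complex.I)) =
      (((p : ℝ) ^ (-ε) : ℝ) : ℂ) * (p : ℂ) ^ (-((τ : ℂ) * Complex.I)) := by
    rw [Complex.ofReal_cpow hp0.le, neg_add, Complex.cpow_add _ _ hpc]
    push_cast
    ring
  rw [e2, Complex.re_ofReal_mul]

theorem trace_eq (P : MvPolynomial ι ℤ)
    (hP : ∀ (K : Type) [Field K] (c : ι → K), MvPolynomial.eval₂ (Int.castRingHom K) c P ≠ 0 →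
      IsSmooth (lform (n := 2 * m + 1) f c)) {b : ℕ} {c : ι → ℤ} {α : ℕ → Fin b → ℂ}
    (h : IsFrobenius f b c α) (p : ℕ) [Fact p.Prime] (hb : BB P p0 p (red p c) = 0) :
    p0 ≤ p ∧ ∑ j, α p j = ((la (n := 2 * m + 1) f p (red p c) + zc f p + (p : ℝ) ^ m : ℝ) : ℂ) := by
  classical
  have hp := (Fact.out : p.Prime)
  have hb' : ¬ (p < p0 ∨ MvPolynomial.eval₂ (Int.castRingHom (ZMod p)) (red p c) P = 0) := by
    intro h1
    unfold BB at hb
    rw [if_pos h1] at hb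
    norm_num at hb
  push Not at hb'
  obtain ⟨hb1, hb2⟩ := hb'
  refine ⟨hb1, ?_⟩
  have hsm : IsSmooth (MvPolynomial.map (algebraMap (ZMod p) (AlgebraicClosure (ZMod p)))
      (lform (n := 2 * m + 1) f (red p c))) := by
    rw [map_lform]
    apply hP
    have h2 : MvPolynomial.eval₂ (Int.castRingHom (AlgebraicClosure (ZMod p)))
        (fun i => algebraMap (ZMod p) (AlgebraicClosure (ZMod p)) (red p c i)) P =
        algebraMap (ZMod p) (AlgebraicClosure (ZMod p))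
          (MvPolynomial.eval₂ (Int.castRingHom (ZMod p)) (red p c) P) := by
      rw [MvPolynomial.eval₂_comp_left, RingHom.ext_int
        ((algebraMap (ZMod p) (AlgebraicClosure (ZMod p))).comp (Int.castRingHom (ZMod p)))
        (Int.castRingHom (AlgebraicClosure (ZMod p)))]
      rfl
    rw [h2]
    intro h3
    exact hb2 ((map_eq_zero _).mp h3)
  have h2 := h.count p hsm
  have hp1' : (p : ℝ) - 1 ≠ 0 := by
    have : (1 : ℝ) < p := by exact_mod_cast hp.one_lt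
    linarith
  have hp1c : ((p : ℂ) - 1) ≠ 0 := by exact_mod_cast hp1'
  have h4 : la (n := 2 * m + 1) f p (red p c) + zc f p + (p : ℝ) ^ m =
      ((lcone (n := 2 * m + 1) f (red p c) : ℝ) - ((p : ℝ) ^ (2 * m + 1) - 1)) / ((p : ℝ) - 1) +
        (p : ℝ) ^ m := by
    unfold la zc dcone
    field_simp
    ring
  rw [h4]
  push_cast
  rw [h2]
  field_simp
  ring

/-- the bound for the normalised trace -/
theorem NN_le (P : MvPolynomial ι ℤ)
    (hP : ∀ (K : Type) [Field K] (c : ι → K), MvPolynomial.eval₂ (Int.castRingHom K) c P ≠ 0 →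
      IsSmooth (lform (n := 2 * m + 1) f c))
    (hZ : ∀ p : ℕ, p.Prime → zc f p ≤ CZ * (p : ℝ) ^ m) {b : ℕ} {c : ι → ℤ} {α : ℕ → Fin b → ℂ}
    (h : IsFrobenius f b c α) (p : ℕ) [Fact p.Prime] :
    |hN f P p0 p (red p c)| ≤ (b + CZ + 1) / p := by
  have hp := (Fact.out : p.Prime)
  have hp0 : (0 : ℝ) < p := by exact_mod_cast hp.pos
  have hCZ : 0 ≤ CZ := by
    have h1 := (zc_nonneg f p hp).trans (hZ p hp)
    by_contra hneg
    push Not at hneg
    have : (0 : ℝ) < (p : ℝ) ^ m := by positivity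
    nlinarith
  unfold hN
  rcases BB_mem P p0 p (red p c) with hb | hb
  · obtain ⟨h1, h2⟩ := trace_eq P hP h p hb
    rw [hb, sub_zero, one_mul, NN, if_neg (by omega), abs_div,
      abs_of_pos (show (0 : ℝ) < (p : ℝ) ^ (m + 1) by positivity),
      div_le_div_iff₀ (by positivity) hp0]
    have h3 : ‖∑ j, α p j‖ ≤ b * (p : ℝ) ^ m := by
      refine (norm_sum_le _ _).trans ?_
      refine (Finset.sum_le_sum fun j _ => h.bound p hp j).trans ?_
      rw [Finset.sum_const, nsmul_eq_mul, Finset.card_univ, Fintype.card_fin]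
    rw [h2, Complex.norm_real, Real.norm_eq_abs] at h3
    have h4 := zc_nonneg f p hp
    have h5 := hZ p hp
    have h6 : |la (n := 2 * m + 1) f p (red p c)| ≤ (b + CZ + 1) * (p : ℝ) ^ m := by
      have h7 : la (n := 2 * m + 1) f p (red p c) =
        (la (n := 2 * m + 1) f p (red p c) + zc f p + (p : ℝ) ^ m) - (zc f p + (p : ℝ) ^ m) := by ring
      rw [h7]
      refine (abs_sub _ _).trans ?_
      have h8 : |zc f p + (p : ℝ) ^ m| = zc f p + (p : ℝ) ^ m :=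
        abs_of_nonneg (add_nonneg h4 (by positivity))
      rw [h8]
      linarith
    calc |la (n := 2 * m + 1) f p (red p c)| * p ≤ (b + CZ + 1) * (p : ℝ) ^ m * p := by gcongr
      _ = _ := by ring
  · rw [hb, sub_self, zero_mul, abs_zero]
    positivity

theorem term_near3 (P : MvPolynomial ι ℤ)
    (hP : ∀ (K : Type) [Field K] (c : ι → K), MvPolynomial.eval₂ (Int.castRingHom K) c P ≠ 0 →
      IsSmooth (lform (n := 2 * m + 1) f c))
    (hZ : ∀ p : ℕ, p.Prime → zc f p ≤ CZ * (p : ℝ) ^ m) {b : ℕ} {c : ι → ℤ} {α : ℕ → Fin b → ℂ}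
    (h : IsFrobenius f b c α) (p : ℕ) [Fact p.Prime] (ε τ : ℝ) (hε : 0 ≤ ε) :
    |((∑ j, twist α τ p j) * (p : ℂ) ^ (-ss (2 * m + 1) ε)).re -
      (((p : ℂ) ^ (-((ε : ℂ) + τ * Complex.I))).re * hN f P p0 p (red p c) +
        rho f p * ((p : ℂ) ^ (-((ε : ℂ) + τ * Complex.I))).re)| ≤
      gB P p0 (b + CZ + 1) p (red p c) := by
  classical
  have hp := (Fact.out : p.Prime)
  have hp0 : (0 : ℝ) < p := by exact_mod_cast hp.pos
  have hp1 : (1 : ℝ) ≤ p := by exact_mod_cast hp.one_lt.le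
  have hpε : (p : ℝ) ^ (-ε) ≤ 1 := Real.rpow_le_one_of_one_le_of_nonpos hp1 (by linarith)
  have hpε0 : 0 < (p : ℝ) ^ (-ε) := by positivity
  rw [re_cpow_u hp]
  set r : ℂ := (p : ℂ) ^ (-((τ : ℂ) * Complex.I)) with hr
  have hr1 : ‖r‖ = 1 := norm_pi p hp τ
  have hre : |r.re| ≤ 1 := (Complex.abs_re_le_norm r).trans hr1.le
  have hsumtw : (∑ j, twist α τ p j) = (∑ j, α p j) * r := by
    rw [Finset.sum_mul]
    rfl
  have hss : (((2 * m + 1 : ℕ) : ℝ) + 1) / 2 = ((m + 1 : ℕ) : ℝ) := by push_cast; ring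
  have hcp : (p : ℂ) ^ (-ss (2 * m + 1) ε) = (((p : ℝ) ^ (-ε) / (p : ℝ) ^ (m + 1) : ℝ) : ℂ) := by
    have h1 : (p : ℝ) ^ (-ε) / (p : ℝ) ^ (m + 1) = (p : ℝ) ^ (-(((m + 1 : ℕ) : ℝ) + ε)) := by
      rw [neg_add, Real.rpow_add hp0, Real.rpow_neg hp0.le ((m + 1 : ℕ) : ℝ), Real.rpow_natCast]
      ring
    rw [h1, Complex.ofReal_cpow hp0.le]
    congr 1
    unfold ss
    rw [hss]
    push_cast
    ring
  obtain ⟨hρ0, hρ1⟩ := rho_bd hZ p hp
  rcases BB_mem P p0 p (red p c) with hb | hb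
  · obtain ⟨hb1, h3⟩ := trace_eq P hP h p hb
    rw [hsumtw, h3, hcp, mul_assoc, mul_comm r, ← mul_assoc, ← Complex.ofReal_mul,
      Complex.re_ofReal_mul, gB, hN, hb, mul_zero, sub_zero, one_mul]
    apply le_of_eq
    rw [abs_eq_zero, sub_eq_zero, NN, if_neg (by omega), rho]
    field_simp
    ring
  · rw [gB, hN, hb, sub_self, zero_mul, mul_zero, zero_add, mul_one, hsumtw]
    have h2 : |((∑ j, α p j) * r * (p : ℂ) ^ (-ss (2 * m + 1) ε)).re| ≤ b / p := by
      refine (Complex.abs_re_le_norm _).trans ?_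
      rw [norm_mul, norm_mul, hr1, mul_one, hcp, Complex.norm_real, Real.norm_of_nonneg (by positivity)]
      have h3 : ‖∑ j, α p j‖ ≤ b * (p : ℝ) ^ m := by
        refine (norm_sum_le _ _).trans ?_
        refine (Finset.sum_le_sum fun j _ => h.bound p hp j).trans ?_
        rw [Finset.sum_const, nsmul_eq_mul, Finset.card_univ, Fintype.card_fin]
      calc _ ≤ b * (p : ℝ) ^ m * (1 / (p : ℝ) ^ (m + 1)) := by gcongr
        _ = _ := by rw [pow_succ]; field_simp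
    have h4 : |rho f p * ((p : ℝ) ^ (-ε) * r.re)| ≤ (CZ + 1) / p := by
      rw [abs_mul, abs_mul, abs_of_nonneg hρ0, abs_of_pos hpε0]
      calc _ ≤ rho f p * (1 * 1) := by gcongr
        _ ≤ _ := by rw [mul_one, mul_one]; exact hρ1
    have h5 := abs_sub (((∑ j, α p j) * r * (p : ℂ) ^ (-ss (2 * m + 1) ε)).re)
      (rho f p * ((p : ℝ) ^ (-ε) * r.re))
    have h7 : ((b : ℝ) + CZ + 1) / p = b / p + (CZ + 1) / p := by ring
    rw [h7]
    linarith

/-- the trivial bound for one prime -/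
theorem term_triv {b : ℕ} {c : ι → ℤ} {α : ℕ → Fin b → ℂ} (h : IsFrobenius f b c α) (p : ℕ)
    (hp : p.Prime) (ε τ : ℝ) (hε : 0 ≤ ε) :
    |((∑ j, twist α τ p j) * (p : ℂ) ^ (-ss (2 * m + 1) ε)).re| ≤ b / p := by
  have hp0 : (0 : ℝ) < p := by exact_mod_cast hp.pos
  have hp1 : (1 : ℝ) ≤ p := by exact_mod_cast hp.one_lt.le
  have hpε : (p : ℝ) ^ (-ε) ≤ 1 := Real.rpow_le_one_of_one_le_of_nonpos hp1 (by linarith)
  have hss : (((2 * m + 1 : ℕ) : ℝ) + 1) / 2 = ((m + 1 : ℕ) : ℝ) := by push_cast; ring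
  have hcp : (p : ℂ) ^ (-ss (2 * m + 1) ε) = (((p : ℝ) ^ (-ε) / (p : ℝ) ^ (m + 1) : ℝ) : ℂ) := by
    have h1 : (p : ℝ) ^ (-ε) / (p : ℝ) ^ (m + 1) = (p : ℝ) ^ (-(((m + 1 : ℕ) : ℝ) + ε)) := by
      rw [neg_add, Real.rpow_add hp0, Real.rpow_neg hp0.le ((m + 1 : ℕ) : ℝ), Real.rpow_natCast]
      ring
    rw [h1, Complex.ofReal_cpow hp0.le]
    congr 1
    unfold ss
    rw [hss]
    push_cast
    ring
  refine (Complex.abs_re_le_norm _).trans ?_
  rw [norm_mul, hcp, Complex.norm_real, Real.norm_of_nonneg (by positivity)]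
  have h3 : ‖∑ j, twist α τ p j‖ ≤ b * (p : ℝ) ^ m := by
    refine (norm_sum_le _ _).trans ?_
    refine (Finset.sum_le_sum fun j _ => ?_ : _ ≤ ∑ _j : Fin b, (p : ℝ) ^ m).trans ?_
    · rw [twist_norm α τ p hp]
      exact h.bound p hp j
    · rw [Finset.sum_const, nsmul_eq_mul, Finset.card_univ, Fintype.card_fin]
  calc _ ≤ b * (p : ℝ) ^ m * (1 / (p : ℝ) ^ (m + 1)) := by gcongr
    _ = _ := by rw [pow_succ]; field_simp

/-- the mean -/
theorem rho_near (e : ℝ)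
    (hZ : ∀ p : ℕ, p.Prime → |zc f p - e * (p : ℝ) ^ m| ≤ CZ * (p : ℝ) ^ ((m : ℝ) - 1 / 2)) (p : ℕ)
    (hp : p.Prime) : |rho f p - (1 + e) * (1 / p)| ≤ CZ * (1 / (p : ℝ) ^ ((3 : ℝ) / 2)) := by
  have hp0 : (0 : ℝ) < p := by exact_mod_cast hp.pos
  have e1 : rho f p - (1 + e) * (1 / p) = (zc f p - e * (p : ℝ) ^ m) * (1 / (p : ℝ) ^ (m + 1)) := by
    rw [rho, pow_succ]
    field_simp
    ring
  rw [e1, abs_mul, abs_of_pos (by positivity : (0 : ℝ) < 1 / (p : ℝ) ^ (m + 1))]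
  calc _ ≤ CZ * (p : ℝ) ^ ((m : ℝ) - 1 / 2) * (1 / (p : ℝ) ^ (m + 1)) := by
        gcongr
        exact hZ p hp
    _ = _ := by
        have e2 : (p : ℝ) ^ (m + 1) = (p : ℝ) ^ ((m : ℝ) - 1 / 2) * (p : ℝ) ^ ((3 : ℝ) / 2) := by
          rw [← Real.rpow_add hp0, ← Real.rpow_natCast]
          congr 1
          push_cast
          ring
        rw [e2]
        field_simp

end

end Pool.Agent.H11.PS
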