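import Mathlib
import Pool.Agent.H11.PS.Link
import Pool.Graph.R_seed8.Helper601.Mertens

/-!
# The L-function of a member, in terms of the blocks
-/

set_option autoImplicit false

namespace Pool.Agent.H11.PS

open Finset Pool.Agent.Y722.HS Pool.Agent.Y722.LS Pool.Agent.N534.TL
open Pool.Agent.H11.TC (blk mem_blk card_blk gp grid gp_re card_grid exists_grid cpow_lip log_div_le)

/-- the prime number sum on the line, with a general cut -/
theorem prime_line' (ε τ : ℝ) (h0 : 0 < ε) (h1 : ε ≤ 1) (y : ℕ) (hy : 1 ≤ y) :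
    |∑ p ∈ PR y, ((p : ℂ) ^ (-((ε : ℂ) + τ * Complex.I))).re * (1 / p) -
      Real.log ‖riemannZeta (1 + ε + τ * Complex.I)‖| ≤ SS + 2 * (16 / (ε * Real.log (y + 1))) := by
  have h3 := log_LP (n := 1) (b := 1) (α := twist (fun _ _ => 1) τ) h0 h1
    (fun p hp j => by rw [twist_norm _ _ p hp]; simp) y hy
  have h4 : LP (b := 1) (twist (fun _ _ => 1) τ) (ss 1 ε) = riemannZeta (1 + ε + τ * Complex.I) := by
    have h5 : ss 1 ε = 1 + (ε : ℂ) := by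
      simp only [ss]
      push_cast
      ring
    have h6 := riemannZeta_eulerProduct_tprod (s := 1 + (ε : ℂ) + τ * Complex.I) (by simp [h0])
    rw [LP_twist, ← h6, h5, LP]
    simp
  have h7 : ∑ p ∈ PR y, ((∑ j : Fin 1, twist (fun _ _ => (1 : ℂ)) τ p j) * (p : ℂ) ^ (-ss 1 ε)).re =
      ∑ p ∈ PR y, ((p : ℂ) ^ (-((ε : ℂ) + τ * Complex.I))).re * (1 / p) := by
    refine Finset.sum_congr rfl fun p hp => ?_
    have hpp := (mem_PR.mp hp).2
    have hp0 : (0 : ℝ) < p := by exact_mod_cast hpp.pos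
    have h8 : (p : ℂ) ^ (-ss 1 ε) = (((p : ℝ) ^ (-ε) * (1 / p) : ℝ) : ℂ) := by
      have h9 : (p : ℝ) ^ (-ε) * (1 / p) = (p : ℝ) ^ (-ε - 1) := by
        rw [Real.rpow_sub hp0, Real.rpow_one]
        ring
      rw [h9, Complex.ofReal_cpow hp0.le]
      congr 1
      simp only [ss]
      push_cast
      ring
    rw [h8, re_cpow_u hpp]
    simp only [Finset.univ_unique, twist, one_mul, Finset.sum_const, Finset.card_singleton, one_smul]
    rw [Complex.re_mul_ofReal]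
    ring
  rw [h4, h7] at h3
  rw [abs_sub_comm]
  refine h3.trans ?_
  push_cast
  linarith

theorem PR_split (h : ℕ → ℝ) {j0 J : ℕ} (hJ : j0 ≤ J) :
    ∑ p ∈ PR (2 ^ J), h p = ∑ p ∈ PR (2 ^ j0), h p + ∑ j ∈ Ico j0 J, ∑ p ∈ blk j, h p := by
  rw [← blocksR h j0 J hJ]
  have hd : Disjoint (PR (2 ^ j0)) ((Ioc (2 ^ j0) (2 ^ J)).filter Nat.Prime) := by
    rw [disjoint_left]
    intro p hp hq
    rw [mem_PR] at hp
    rw [mem_filter, mem_Ioc] at hq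
    omega
  rw [← sum_union hd]
  congr 1
  ext p
  rw [mem_union, mem_PR, mem_PR, mem_filter, mem_Ioc]
  have h1 : 2 ^ j0 ≤ 2 ^ J := Nat.pow_le_pow_right (by norm_num) hJ
  constructor
  · rintro ⟨h2, h3⟩
    by_cases h4 : p ≤ 2 ^ j0
    · left; exact ⟨h4, h3⟩
    · right; exact ⟨⟨by omega, h2⟩, h3⟩
  · rintro (⟨h2, h3⟩ | ⟨⟨h2, h4⟩, h3⟩)
    · exact ⟨by omega, h3⟩
    · exact ⟨h4, h3⟩

theorem mertens_PR : ∃ C : ℝ, 0 ≤ C ∧ ∀ y : ℕ, 3 ≤ y →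
    ∑ p ∈ PR y, (1 : ℝ) / p ≤ Real.log (Real.log y) + C := by
  obtain ⟨C, hC⟩ := Pool.Agent.Helper601.Mertens.mertens_inv
  refine ⟨C, (abs_nonneg _).trans (hC 3 le_rfl), fun y hy => ?_⟩
  have h1 := (abs_le.mp (hC y hy)).2
  have h2 : PR y = (Finset.Icc 1 y).filter Nat.Prime := by
    ext p
    rw [mem_PR, mem_filter, mem_Icc]
    constructor
    · rintro ⟨h2, h3⟩
      exact ⟨⟨h3.one_lt.le, h2⟩, h3⟩
    · rintro ⟨⟨_, h2⟩, h3⟩
      exact ⟨h2, h3⟩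
  rw [h2]
  linarith

variable {m : ℕ} {ι : Type} [Fintype ι] [DecidableEq ι]

section
variable {f : ι → MvPolynomial (Fin (2 * m + 2)) ℤ} {p0 : ℕ} {CZ : ℝ}

/-- one prime beyond `2 ^ j0` -/
theorem one_prime (P : MvPolynomial ι ℤ)
    (hP : ∀ (K : Type) [Field K] (c : ι → K), MvPolynomial.eval₂ (Int.castRingHom K) c P ≠ 0 →
      IsSmooth (lform (n := 2 * m + 1) f c)) (hC1 : 0 ≤ CZ) (e : ℝ)
    (hZ : ∀ p : ℕ, p.Prime → |zc f p - e * (p : ℝ) ^ m| ≤ CZ * (p : ℝ) ^ ((m : ℝ) - 1 / 2))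
    (hZ' : ∀ p : ℕ, p.Prime → zc f p ≤ (|e| + CZ) * (p : ℝ) ^ m) {A : ℝ}
    (hF : Fam A (NN f p0) (BB P p0)) {b : ℕ} {β : ℝ} (hβ : β = b + (|e| + CZ) + 1)
    (c : ι → ℤ) (α : ℕ → Fin b → ℂ) (h : IsFrobenius f b c α) (ε τ : ℝ)
    (hε : 0 ≤ ε) (p : ℕ) (hp : p.Prime) :
    |((∑ j, twist α τ p j) * (p : ℂ) ^ (-ss (2 * m + 1) ε)).re -
      (1 + e) * (((p : ℂ) ^ (-((ε : ℂ) + τ * Complex.I))).re * (1 / p)) -
      ((p : ℂ) ^ (-((ε : ℂ) + τ * Complex.I))).re * cen (hN f P p0) p (red p c)| ≤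
      ((p : ℂ) ^ (-(0 : ℂ))).re * cen (gB P p0 β) p (red p c) +
        (3 * A + β * A + CZ) * (1 / (p : ℝ) ^ ((3 : ℝ) / 2)) := by
  haveI := Fact.mk hp
  have hp0 : (0 : ℝ) < p := by exact_mod_cast hp.pos
  have h1 := term_near3 (p0 := p0) P hP hZ' h p ε τ hε
  rw [← hβ] at h1
  have hβ0 : 0 ≤ β := by rw [hβ]; positivity
  have h2 := av_hN (m := m) (f := f) (p0 := p0) hF p hp
  have h3 := av_gB hF hβ0 p hp
  have h4 := rho_near (f := f) e hZ p hp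
  have h5 : |((p : ℂ) ^ (-((ε : ℂ) + τ * Complex.I))).re| ≤ 1 :=
    re_pu hp.one_lt.le (by simpa using hε)
  have e0 : ((p : ℂ) ^ (-(0 : ℂ))).re = 1 := by simp
  rw [e0, one_mul, cen, cen]
  set r := ((p : ℂ) ^ (-((ε : ℂ) + τ * Complex.I))).re
  set t := ((∑ j, twist α τ p j) * (p : ℂ) ^ (-ss (2 * m + 1) ε)).re
  set x := hN f P p0 p (red p c)
  set a := av (hN f P p0) p
  set g := gB P p0 β p (red p c)
  set q := 1 / (p : ℝ) ^ ((3 : ℝ) / 2)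
  have e1 : t - (1 + e) * (r * (1 / p)) - r * (x - a) =
      (t - (r * x + rho f p * r)) + r * a + r * (rho f p - (1 + e) * (1 / p)) := by ring
  rw [e1]
  have i1 := abs_add_le ((t - (r * x + rho f p * r)) + r * a) (r * (rho f p - (1 + e) * (1 / p)))
  have i2 := abs_add_le (t - (r * x + rho f p * r)) (r * a)
  have i3 : |r * a| ≤ 3 * A * q := by
    rw [abs_mul]
    calc |r| * |a| ≤ 1 * (3 * A * q) := by gcongr
      _ = _ := one_mul _
  have i4 : |r * (rho f p - (1 + e) * (1 / p))| ≤ CZ * q := by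
    rw [abs_mul]
    calc _ ≤ 1 * (CZ * q) := by gcongr
      _ = _ := one_mul _
  have e2 : (3 * A + β * A + CZ) * q = 3 * A * q + β * A * q + CZ * q := by ring
  rw [e2]
  linarith

/-- The L-function of one member. -/
theorem member (P : MvPolynomial ι ℤ)
    (hP : ∀ (K : Type) [Field K] (c : ι → K), MvPolynomial.eval₂ (Int.castRingHom K) c P ≠ 0 →
      IsSmooth (lform (n := 2 * m + 1) f c)) (hC1 : 0 ≤ CZ) (e : ℝ)
    (hZ : ∀ p : ℕ, p.Prime → |zc f p - e * (p : ℝ) ^ m| ≤ CZ * (p : ℝ) ^ ((m : ℝ) - 1 / 2))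
    (hZ' : ∀ p : ℕ, p.Prime → zc f p ≤ (|e| + CZ) * (p : ℝ) ^ m) {A : ℝ}
    (hF : Fam A (NN f p0) (BB P p0)) {b : ℕ} {β : ℝ} (hβ : β = b + (|e| + CZ) + 1)
    (c : ι → ℤ) (α : ℕ → Fin b → ℂ) (h : IsFrobenius f b c α) (ε τ : ℝ)
    (hε : 0 < ε) (hε1 : ε ≤ 1) {j0 J : ℕ} (hJ : j0 ≤ J) {R : ℝ}
    (hR : 16 / (ε * Real.log ((2 ^ J : ℕ) + 1)) ≤ R) :
    |Real.log ‖LP α (ss (2 * m + 1) ε + τ * Complex.I)‖ -
      (1 + e) * Real.log ‖riemannZeta (1 + ε + τ * Complex.I)‖| ≤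
      (b + |1 + e|) * ∑ p ∈ PR (2 ^ j0), (1 : ℝ) / p +
      ∑ j ∈ Ico j0 J, |Zr (cen (hN f P p0)) j c ((ε : ℂ) + τ * Complex.I)| +
      ∑ j ∈ Ico j0 J, |Zr (cen (gB P p0 β)) j c 0| +
      ((3 * A + β * A + CZ) * SS + (b * SS + 2 * b * R) + |1 + e| * (SS + 2 * R)) := by
  have hbound : ∀ p : ℕ, p.Prime → ∀ j,
      ‖twist α τ p j‖ ≤ (p : ℝ) ^ ((((2 * m + 1 : ℕ) : ℝ) - 1) / 2) := by
    intro p hp j
    have e : (((2 * m + 1 : ℕ) : ℝ) - 1) / 2 = (m : ℝ) := by push_cast; ring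
    rw [e, Real.rpow_natCast, twist_norm α τ p hp]
    exact h.bound p hp j
  have hy : 1 ≤ 2 ^ J := Nat.one_le_two_pow
  have h1 := log_LP (n := 2 * m + 1) hε hε1 hbound (2 ^ J) hy
  rw [LP_twist] at h1
  have h1' : |Real.log ‖LP α (ss (2 * m + 1) ε + τ * Complex.I)‖ -
      ∑ p ∈ PR (2 ^ J), ((∑ j, twist α τ p j) * (p : ℂ) ^ (-ss (2 * m + 1) ε)).re| ≤
      b * SS + 2 * b * R := by
    refine h1.trans ?_
    gcongr
  have h2 := prime_line' ε τ hε hε1 (2 ^ J) hy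
  have h2' : |∑ p ∈ PR (2 ^ J), ((p : ℂ) ^ (-((ε : ℂ) + τ * Complex.I))).re * (1 / p) -
      Real.log ‖riemannZeta (1 + ε + τ * Complex.I)‖| ≤ SS + 2 * R := by
    refine h2.trans ?_
    gcongr
  set t : ℕ → ℝ := fun p => ((∑ j, twist α τ p j) * (p : ℂ) ^ (-ss (2 * m + 1) ε)).re with ht
  set r : ℕ → ℝ := fun p => ((p : ℂ) ^ (-((ε : ℂ) + τ * Complex.I))).re with hr
  have hA := hF.A0
  have hβ0 : 0 ≤ β := by rw [hβ]; positivity
  -- the difference of the two sums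
  have h3 : |∑ p ∈ PR (2 ^ J), (t p - (1 + e) * (r p * (1 / p)))| ≤
      (b + |1 + e|) * ∑ p ∈ PR (2 ^ j0), (1 : ℝ) / p +
      ∑ j ∈ Ico j0 J, |Zr (cen (hN f P p0)) j c ((ε : ℂ) + τ * Complex.I)| +
      ∑ j ∈ Ico j0 J, |Zr (cen (gB P p0 β)) j c 0| + (3 * A + β * A + CZ) * SS := by
    rw [PR_split _ hJ]
    have a1 : |∑ p ∈ PR (2 ^ j0), (t p - (1 + e) * (r p * (1 / p)))| ≤
        (b + |1 + e|) * ∑ p ∈ PR (2 ^ j0), (1 : ℝ) / p := by
      rw [mul_sum]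
      refine (abs_sum_le_sum_abs _ _).trans (sum_le_sum fun p hp => ?_)
      have hpp := (mem_PR.mp hp).2
      have hp0 : (0 : ℝ) < p := by exact_mod_cast hpp.pos
      have b1 : |t p| ≤ b / p := term_triv h p hpp ε τ hε.le
      have b2 : |(1 + e) * (r p * (1 / p))| ≤ |1 + e| * (1 / p) := by
        rw [abs_mul, abs_mul, abs_of_pos (by positivity : (0 : ℝ) < 1 / p)]
        have b3 : |r p| ≤ 1 := re_pu hpp.one_lt.le (by simpa using hε.le)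
        calc |1 + e| * (|r p| * (1 / p)) ≤ |1 + e| * (1 * (1 / p)) := by gcongr
          _ = _ := by rw [one_mul]
      have b4 := abs_sub (t p) ((1 + e) * (r p * (1 / p)))
      have b5 : (b + |1 + e|) * (1 / (p : ℝ)) = b / p + |1 + e| * (1 / p) := by ring
      rw [b5]
      linarith
    have a2 : |∑ j ∈ Ico j0 J, ∑ p ∈ blk j, (t p - (1 + e) * (r p * (1 / p)))| ≤
        ∑ j ∈ Ico j0 J, |Zr (cen (hN f P p0)) j c ((ε : ℂ) + τ * Complex.I)| +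
        ∑ j ∈ Ico j0 J, |Zr (cen (gB P p0 β)) j c 0| + (3 * A + β * A + CZ) * SS := by
      have c1 : ∀ j ∈ Ico j0 J, |∑ p ∈ blk j, (t p - (1 + e) * (r p * (1 / p)))| ≤
          |Zr (cen (hN f P p0)) j c ((ε : ℂ) + τ * Complex.I)| + |Zr (cen (gB P p0 β)) j c 0| +
          (3 * A + β * A + CZ) * ∑ p ∈ blk j, 1 / (p : ℝ) ^ ((3 : ℝ) / 2) := by
        intro j _
        have d1 : |∑ p ∈ blk j, (t p - (1 + e) * (r p * (1 / p)) -
            r p * cen (hN f P p0) p (red p c))| ≤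
            ∑ p ∈ blk j, (((p : ℂ) ^ (-(0 : ℂ))).re * cen (gB P p0 β) p (red p c) +
              (3 * A + β * A + CZ) * (1 / (p : ℝ) ^ ((3 : ℝ) / 2))) := by
          refine (abs_sum_le_sum_abs _ _).trans (sum_le_sum fun p hp => ?_)
          exact one_prime P hP hC1 e hZ hZ' hF hβ c α h ε τ hε.le p (mem_blk.mp hp).2
        rw [sum_sub_distrib, sum_add_distrib, ← mul_sum] at d1
        have d2 : ∑ p ∈ blk j, r p * cen (hN f P p0) p (red p c) =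
          Zr (cen (hN f P p0)) j c ((ε : ℂ) + τ * Complex.I) := rfl
        have d3 : ∑ p ∈ blk j, ((p : ℂ) ^ (-(0 : ℂ))).re * cen (gB P p0 β) p (red p c) =
          Zr (cen (gB P p0 β)) j c 0 := rfl
        rw [d2, d3] at d1
        have d4 := le_abs_self (Zr (cen (gB P p0 β)) j c 0)
        have d5 := abs_sub_abs_le_abs_sub (∑ p ∈ blk j, (t p - (1 + e) * (r p * (1 / p))))
          (Zr (cen (hN f P p0)) j c ((ε : ℂ) + τ * Complex.I))
        linarith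
      refine (abs_sum_le_sum_abs _ _).trans ((sum_le_sum c1).trans ?_)
      rw [sum_add_distrib, sum_add_distrib, ← mul_sum]
      have c2 : ∑ j ∈ Ico j0 J, ∑ p ∈ blk j, 1 / (p : ℝ) ^ ((3 : ℝ) / 2) ≤ SS := by
        rw [← blocksR (fun p => 1 / (p : ℝ) ^ ((3 : ℝ) / 2)) j0 J hJ]
        exact sum_le_SS _
      have c3 : 0 ≤ 3 * A + β * A + CZ := by positivity
      have c4 := mul_le_mul_of_nonneg_left c2 c3
      linarith
    have a3 := abs_add_le (∑ p ∈ PR (2 ^ j0), (t p - (1 + e) * (r p * (1 / p))))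
      (∑ j ∈ Ico j0 J, ∑ p ∈ blk j, (t p - (1 + e) * (r p * (1 / p))))
    linarith
  rw [sum_sub_distrib, ← mul_sum] at h3
  change |Real.log ‖LP α (ss (2 * m + 1) ε + τ * Complex.I)‖ - ∑ p ∈ PR (2 ^ J), t p| ≤
    b * SS + 2 * b * R at h1'
  change |∑ p ∈ PR (2 ^ J), r p * (1 / p) -
      Real.log ‖riemannZeta (1 + ε + τ * Complex.I)‖| ≤ SS + 2 * R at h2'
  set L := Real.log ‖LP α (ss (2 * m + 1) ε + τ * Complex.I)‖
  set l := Real.log ‖riemannZeta (1 + ε + τ * Complex.I)‖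
  set S1 := ∑ p ∈ PR (2 ^ J), t p
  set S2 := ∑ p ∈ PR (2 ^ J), r p * (1 / p)
  have e0 : L - (1 + e) * l = (L - S1) + (S1 - (1 + e) * S2) + (1 + e) * (S2 - l) := by ring
  rw [e0]
  have i1 := abs_add_le ((L - S1) + (S1 - (1 + e) * S2)) ((1 + e) * (S2 - l))
  have i2 := abs_add_le (L - S1) (S1 - (1 + e) * S2)
  have i3 : |(1 + e) * (S2 - l)| ≤ |1 + e| * (SS + 2 * R) := by
    rw [abs_mul]
    gcongr
  linarith

end

end Pool.Agent.H11.PS
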