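import Mathlib
import Pool.Agent.H11.PS.Member

/-!
# The choice of the parameters
-/

set_option autoImplicit false

namespace Pool.Agent.H11.PS

open Finset Filter

/-- the conditions on `H` -/
theorem large' (η D : ℝ) (hη : 0 < η) : ∃ H1 : ℕ, ∀ H : ℕ, H1 ≤ H →
    16 ≤ H ∧ 1 ≤ Real.log (Real.log H) ∧ 2 * D ≤ Real.log H ^ 2 ∧
      (48 / η + 2) * Real.log (Real.log H) ≤ η / 8 * Real.log H ∧
      Real.log H ≤ (H : ℝ) ^ (η / 64) := by
  have t1 : Tendsto (fun Q : ℕ => Real.log Q) atTop atTop :=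
    Real.tendsto_log_atTop.comp tendsto_natCast_atTop_atTop
  have t2 : Tendsto (fun Q : ℕ => Real.log (Real.log Q)) atTop atTop := Real.tendsto_log_atTop.comp t1
  have t3 : Tendsto (fun Q : ℕ => Real.log Q ^ 2) atTop atTop :=
    (tendsto_pow_atTop (by norm_num)).comp t1
  have h4 := (isLittleO_log_rpow_atTop (show (0 : ℝ) < η / 64 by positivity)).bound (c := 1) one_pos
  have h5 := tendsto_natCast_atTop_atTop (R := ℝ) |>.eventually h4
  set κ : ℝ := (η / 8) / (48 / η + 2) with hκ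
  have hκ0 : 0 < κ := by positivity
  have h6 := (Real.isLittleO_log_id_atTop).bound (c := κ) hκ0
  have h7 := t1.eventually h6
  have h8 : ∀ᶠ H : ℕ in atTop, 16 ≤ H ∧ 1 ≤ Real.log (Real.log H) ∧ 2 * D ≤ Real.log H ^ 2 ∧
      (48 / η + 2) * Real.log (Real.log H) ≤ η / 8 * Real.log H ∧
      Real.log H ≤ (H : ℝ) ^ (η / 64) := by
    filter_upwards [eventually_ge_atTop 16, t2.eventually_ge_atTop 1, t3.eventually_ge_atTop (2 * D),
      h5, h7] with H a0 a1 a2 a3 a4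
    have hH : (1 : ℝ) ≤ H := by exact_mod_cast (by omega : 1 ≤ H)
    have hL : 0 ≤ Real.log H := Real.log_nonneg hH
    refine ⟨a0, a1, a2, ?_, ?_⟩
    · rw [Real.norm_eq_abs, id, Real.norm_of_nonneg hL] at a4
      have a5 := (le_abs_self _).trans a4
      calc (48 / η + 2) * Real.log (Real.log H) ≤ (48 / η + 2) * (κ * Real.log H) := by gcongr
        _ = _ := by rw [hκ]; field_simp
    · have hQ : (0 : ℝ) ≤ (H : ℝ) ^ (η / 64) := by positivity
      rw [Real.norm_eq_abs, Real.norm_of_nonneg hQ, one_mul] at a3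
      exact (le_abs_self _).trans a3
  obtain ⟨H1, h⟩ := eventually_atTop.mp h8
  exact ⟨H1, h⟩

/-- the moments -/
theorem kL_bound {H j : ℕ} (hH : 16 ≤ H) (hj : 1 ≤ j) : (kL H j : ℝ) ≤ 2 * Real.log H / j := by
  have hj0 : (0 : ℝ) < j := by exact_mod_cast hj
  have hH0 : (0 : ℝ) < H := by exact_mod_cast (by omega : 0 < H)
  have h1 := Nat.pow_log_le_self (4 ^ (j + 1)) (x := 6 * H) (by omega)
  change (4 ^ (j + 1)) ^ kL H j ≤ 6 * H at h1
  have h2 : (4 ^ (j + 1)) ^ kL H j ≤ H ^ 2 := h1.trans (by nlinarith)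
  have h3 : Real.log ((((4 : ℝ) ^ (j + 1)) ^ kL H j)) ≤ Real.log ((H : ℝ) ^ 2) := by
    apply Real.log_le_log (by positivity)
    exact_mod_cast h2
  rw [Real.log_pow, Real.log_pow, Real.log_pow] at h3
  have h4 : (1 : ℝ) ≤ Real.log 4 := by
    have h5 : Real.log 4 = 2 * Real.log 2 := by
      rw [show (4 : ℝ) = 2 ^ 2 by norm_num, Real.log_pow]
      push_cast
      ring
    have := Real.log_two_gt_d9
    linarith
  rw [le_div_iff₀ hj0]
  push_cast at h3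
  calc (kL H j : ℝ) * j ≤ (kL H j : ℝ) * (((j : ℝ) + 1) * Real.log 4) := by
        gcongr
        nlinarith
    _ ≤ _ := h3

theorem pow_bound' {η D : ℝ} (hη : 0 < η) (hD : 0 ≤ D) {H j : ℕ} (hH : 16 ≤ H) (hj : 1 ≤ j)
    (hL1 : 1 ≤ Real.log H) (hLD : 2 * D ≤ Real.log H ^ 2) (hjL : (j : ℝ) ≤ Real.log H)
    (hjA : 48 / η * Real.log (Real.log H) ≤ j) :
    (D * kL H j * (j : ℝ) ^ 4) ^ kL H j ≤ (H : ℝ) ^ (η / 4) := by
  have hj0 : (0 : ℝ) < j := by exact_mod_cast hj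
  have hH0 : (0 : ℝ) < H := by exact_mod_cast (by omega : 0 < H)
  have h1 := kL_bound hH hj
  set L := Real.log H with hLdef
  have hlogL : 0 ≤ Real.log L := Real.log_nonneg hL1
  have hL0 : 0 < L := by linarith
  have h2 : D * kL H j * (j : ℝ) ^ 4 ≤ L ^ 6 := by
    calc D * kL H j * (j : ℝ) ^ 4 ≤ D * (2 * L / j) * (j : ℝ) ^ 4 := by gcongr
      _ = 2 * D * L * (j : ℝ) ^ 3 := by field_simp
      _ ≤ 2 * D * L * L ^ 3 := by gcongr
      _ = 2 * D * L ^ 4 := by ring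
      _ ≤ L ^ 2 * L ^ 4 := by gcongr
      _ = L ^ 6 := by ring
  calc (D * kL H j * (j : ℝ) ^ 4) ^ kL H j ≤ (L ^ 6) ^ kL H j := by gcongr
    _ = Real.exp (6 * (kL H j : ℝ) * Real.log L) := by
        rw [← pow_mul, ← Real.exp_log (pow_pos hL0 (6 * kL H j)), Real.log_pow]
        push_cast
        rfl
    _ ≤ Real.exp (L * (η / 4)) := by
        apply Real.exp_le_exp.mpr
        calc 6 * (kL H j : ℝ) * Real.log L ≤ 6 * (2 * L / j) * Real.log L := by gcongr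
          _ = 12 * L * (Real.log L / j) := by ring
          _ ≤ 12 * L * (η / 48) := by
              apply mul_le_mul_of_nonneg_left _ (by positivity)
              rw [div_le_div_iff₀ hj0 (by norm_num)]
              have h5 : 48 / η * Real.log L * η ≤ j * η := by gcongr
              have h6 : 48 / η * Real.log L * η = Real.log L * 48 := by field_simp
              linarith
          _ = _ := by ring
    _ = (H : ℝ) ^ (η / 4) := by rw [Real.rpow_def_of_pos hH0]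

theorem size' {H : ℝ} (hH : 1 ≤ H) {η B : ℝ} (hη : 0 < η) (hB : 0 ≤ B) {J M T : ℕ}
    (hJ : (J : ℝ) ≤ H ^ (η / 64)) (hM : (M : ℝ) ≤ 8 * B * (J : ℝ) ^ 3 + 2)
    (hT : (T : ℝ) ≤ 2 * H ^ (η / 4)) (h2J : (2 : ℝ) ^ J ≤ H ^ (η / 4)) (n : ℕ) :
    (J : ℝ) * (((M : ℝ) + 1) * (2 * T * M + 1)) *
      ((24 * H) ^ n * (2 * H ^ (η / 4)) * (2 ^ J / Real.sqrt (6 * H))) ≤
      (8 * B + 3) * (32 * B + 9) * (24 ^ n * 2) * H ^ ((n : ℝ) - 1 / 2 + η) := by
  have hH0 : 0 < H := by linarith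
  set X : ℝ := H ^ (η / 64) with hX
  set Y : ℝ := H ^ (η / 4) with hY
  have hX1 : 1 ≤ X := Real.one_le_rpow hH (by positivity)
  have hY1 : 1 ≤ Y := Real.one_le_rpow hH (by positivity)
  have hX0 : 0 < X := by linarith
  have hX3 : 1 ≤ X ^ 3 := one_le_pow₀ hX1
  have hJ3 : (J : ℝ) ^ 3 ≤ X ^ 3 := by gcongr
  have hM1 : (M : ℝ) ≤ (8 * B + 2) * X ^ 3 := by
    have h1 : 8 * B * (J : ℝ) ^ 3 ≤ 8 * B * X ^ 3 := by gcongr
    nlinarith
  have hM2 : (M : ℝ) + 1 ≤ (8 * B + 3) * X ^ 3 := by nlinarith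
  have hM3 : 2 * (T : ℝ) * M + 1 ≤ (32 * B + 9) * (Y * X ^ 3) := by
    have h1 : 2 * (T : ℝ) * M ≤ 2 * (2 * Y) * ((8 * B + 2) * X ^ 3) := by gcongr
    have h2 : 1 ≤ Y * X ^ 3 := one_le_mul_of_one_le_of_one_le hY1 hX3
    nlinarith
  have hsq : 1 / Real.sqrt (6 * H) ≤ H ^ (-(1 / 2) : ℝ) := by
    rw [Real.rpow_neg hH0.le, ← Real.sqrt_eq_rpow, ← one_div]
    have : 0 < Real.sqrt H := Real.sqrt_pos.mpr hH0
    gcongr
    linarith
  have hfin : X * (X ^ 3 * (Y * X ^ 3)) * (H ^ n * Y * (Y * H ^ (-(1 / 2) : ℝ))) ≤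
      H ^ ((n : ℝ) - 1 / 2 + η) := by
    have e1 : X * (X ^ 3 * (Y * X ^ 3)) * (H ^ n * Y * (Y * H ^ (-(1 / 2) : ℝ))) =
        H ^ (7 * (η / 64) + 3 * (η / 4) + (n : ℝ) + (-(1 / 2) : ℝ)) := by
      rw [Real.rpow_add hH0, Real.rpow_add hH0, Real.rpow_add hH0, Real.rpow_natCast,
        show X * (X ^ 3 * (Y * X ^ 3)) * (H ^ n * Y * (Y * H ^ (-(1 / 2) : ℝ))) =
          X ^ 7 * Y ^ 3 * H ^ n * H ^ (-(1 / 2) : ℝ) by ring, hX, hY,
        ← Real.rpow_natCast (H ^ (η / 64)), ← Real.rpow_mul hH0.le, ← Real.rpow_natCast (H ^ (η / 4)),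
        ← Real.rpow_mul hH0.le]
      push_cast
      rw [mul_comm (7 : ℝ), mul_comm (3 : ℝ)]
    rw [e1]
    apply Real.rpow_le_rpow_of_exponent_le hH
    linarith
  calc (J : ℝ) * (((M : ℝ) + 1) * (2 * T * M + 1)) *
      ((24 * H) ^ n * (2 * Y) * (2 ^ J / Real.sqrt (6 * H))) =
      (J : ℝ) * (((M : ℝ) + 1) * (2 * T * M + 1)) *
      ((24 * H) ^ n * (2 * Y) * (2 ^ J * (1 / Real.sqrt (6 * H)))) := by ring
    _ ≤ X * (((8 * B + 3) * X ^ 3) * ((32 * B + 9) * (Y * X ^ 3))) *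
        ((24 * H) ^ n * (2 * Y) * (Y * H ^ (-(1 / 2) : ℝ))) := by gcongr
    _ = (8 * B + 3) * (32 * B + 9) * (24 ^ n * 2) *
        (X * (X ^ 3 * (Y * X ^ 3)) * (H ^ n * Y * (Y * H ^ (-(1 / 2) : ℝ)))) := by
        rw [mul_pow]
        ring
    _ ≤ _ := by gcongr

end Pool.Agent.H11.PS
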