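import Mathlib
import Pool.Agent.H11.PS.Param

/-!
# Power saving exceptional sets for linear systems
-/

set_option autoImplicit false

namespace Pool.Agent.H11.PS

open Finset Pool.Agent.Y722.HS Pool.Agent.Y722.LS Pool.Agent.N534.TL
open Pool.Agent.H11.TC (blk mem_blk card_blk gp grid gp_re card_grid exists_grid cpow_lip log_div_le)

variable {m : ℕ} {ι : Type} [Fintype ι] [DecidableEq ι]

theorem exists_red {H p : ℕ} (hp : 0 < p) (hpH : p ≤ H) (z : ι → ZMod p) :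
    ∃ c ∈ Pool.Agent.Y722.HS.box ι H, red p c = z := by
  haveI : NeZero p := ⟨hp.ne'⟩
  refine ⟨fun i => ((z i).val : ℤ), ?_, ?_⟩
  · unfold Pool.Agent.Y722.HS.box
    rw [Fintype.mem_piFinset]
    intro i
    unfold IH
    rw [mem_Icc]
    have h1 := ZMod.val_lt (z i)
    constructor
    · have : (0 : ℤ) ≤ ((z i).val : ℤ) := by positivity
      omega
    · omega
  · funext i
    unfold red
    simp

/-- the representative of the parameters -/
theorem powers {H : ℕ} {η : ℝ} (hη : 0 < η) (hη1 : η ≤ 1) (hH : 16 ≤ H)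
    (hL1 : 1 ≤ Real.log (Real.log H))
    (hL2 : (48 / η + 2) * Real.log (Real.log H) ≤ η / 8 * Real.log H) :
    ∃ J : ℕ, (2 : ℝ) ^ J ≤ (H : ℝ) ^ (η / 4) ∧ 4 ^ J ≤ 6 * H ∧ 2 ^ J ≤ H ∧ (J : ℝ) ≤ Real.log H ∧
      ⌈48 / η * Real.log (Real.log H)⌉₊ ≤ J ∧ η / 8 * Real.log H ≤ Real.log ((2 ^ J : ℕ) + 1) := by
  have hH0 : (0 : ℝ) < H := by exact_mod_cast (by omega : 0 < H)
  have hH1 : (1 : ℝ) ≤ H := by exact_mod_cast (by omega : 1 ≤ H)
  have hl2 := Real.log_two_gt_d9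
  have hl2' := Real.log_two_lt_d9
  have hL0 : 0 ≤ Real.log H := Real.log_nonneg hH1
  have hη0 : 0 < 48 / η := by positivity
  set L := Real.log H with hL
  have hLη : 2 * Real.log L ≤ η / 8 * L := by nlinarith
  set J : ℕ := ⌊η / 4 * L / Real.log 2⌋₊ with hJ
  have hJ1 : (J : ℝ) * Real.log 2 ≤ η / 4 * L := by
    have h1 : (J : ℝ) ≤ η / 4 * L / Real.log 2 := Nat.floor_le (by positivity)
    rwa [le_div_iff₀ (by linarith)] at h1
  have hJ2 : η / 4 * L < ((J : ℝ) + 1) * Real.log 2 := by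
    have h1 : η / 4 * L / Real.log 2 < (J : ℝ) + 1 := Nat.lt_floor_add_one _
    rwa [div_lt_iff₀ (by linarith)] at h1
  have hpow : (2 : ℝ) ^ J ≤ (H : ℝ) ^ (η / 4) := by
    have e1 : (2 : ℝ) ^ J = Real.exp ((J : ℝ) * Real.log 2) := by
      rw [← Real.exp_log (show (0 : ℝ) < 2 ^ J by positivity), Real.log_pow]
    rw [e1, Real.rpow_def_of_pos hH0]
    apply Real.exp_le_exp.mpr
    linarith
  have hpow4 : (4 : ℝ) ^ J ≤ (H : ℝ) := by
    calc (4 : ℝ) ^ J = (2 ^ J) ^ 2 := by rw [show (4 : ℝ) = 2 ^ 2 by norm_num, ← pow_mul, ← pow_mul, mul_comm]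
      _ ≤ ((H : ℝ) ^ (η / 4)) ^ 2 := by gcongr
      _ = (H : ℝ) ^ (η / 2) := by
          rw [← Real.rpow_natCast, ← Real.rpow_mul hH0.le]
          congr 1
          push_cast
          ring
      _ ≤ (H : ℝ) ^ (1 : ℝ) := Real.rpow_le_rpow_of_exponent_le hH1 (by linarith)
      _ = H := Real.rpow_one _
  have hpow4' : 4 ^ J ≤ H := by exact_mod_cast hpow4
  refine ⟨J, hpow, by omega, ?_, ?_, ?_, ?_⟩
  · calc 2 ^ J ≤ 4 ^ J := Nat.pow_le_pow_left (by norm_num) J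
      _ ≤ H := hpow4'
  · nlinarith
  · apply Nat.ceil_le.mpr
    have h2 : 48 / η * Real.log L + 2 ≤ η / 8 * L := by nlinarith
    nlinarith
  · have h3 : (J : ℝ) * Real.log 2 ≤ Real.log ((2 ^ J : ℕ) + 1) := by
      rw [← Real.log_pow]
      apply Real.log_le_log (by positivity)
      push_cast
      linarith
    nlinarith

/-- **The main theorem**, for the large heights. -/
theorem main {d : ℕ} (hd : 1 ≤ d) (f : ι → MvPolynomial (Fin (2 * m + 2)) ℤ)
    (hf : ∀ i, (f i).IsHomogeneous d) (c0 : ι → ℤ)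
    (hs : IsSmooth (lform (n := 2 * m + 1) f (fun i => (c0 i : ℂ)))) (p0 : ℕ)
    (hsep : ∀ p : ℕ, p.Prime → p0 ≤ p → Separates (n := 2 * m + 1) f p) (e C0 : ℝ)
    (hZ : ∀ p : ℕ, p.Prime → p0 ≤ p → |zc f p - e * (p : ℝ) ^ m| ≤ C0 * (p : ℝ) ^ ((m : ℝ) - 1 / 2))
    (b : ℕ) (η : ℝ) (hη : 0 < η) (hη1 : η ≤ 1) :
    ∃ C : ℝ, 0 < C ∧ ∀ H : ℕ, 16 ≤ H → (∀ c ∈ Pool.Agent.Y722.HS.box ι H, ∃ α : ℕ → Fin b → ℂ, IsFrobenius f b c α) →
      ∃ E ⊆ Pool.Agent.Y722.HS.box ι H, (E.card : ℝ) ≤ C * (H : ℝ) ^ ((Fintype.card ι : ℝ) - 1 / 2 + η) ∧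
        ∀ c ∈ Pool.Agent.Y722.HS.box ι H \ E, ∀ α : ℕ → Fin b → ℂ, IsFrobenius f b c α → ∀ ε τ : ℝ,
          1 / Real.log H ≤ ε → ε ≤ 1 → |τ| ≤ (H : ℝ) ^ (η / 4) →
          |Real.log ‖LP α (m + 1 + ε + τ * Complex.I)‖ -
            (1 + e) * Real.log ‖riemannZeta (1 + ε + τ * Complex.I)‖| ≤
            (b + |1 + e|) * Real.log (Real.log (Real.log H)) + C := by
  classical
  obtain ⟨C1, hC1, hZ1⟩ := count_all f p0 e C0 hZ
  have hzc : ∀ p : ℕ, p.Prime → zc f p ≤ (|e| + C1) * (p : ℝ) ^ m := by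
    intro p hp
    have h1 := hZ1 p hp
    have h2 := half_pow (m := m) hp
    have h3 : (0 : ℝ) ≤ (p : ℝ) ^ m := by positivity
    have h4 := (abs_le.mp h1).2
    have h5 : e * (p : ℝ) ^ m ≤ |e| * (p : ℝ) ^ m := by
      gcongr
      exact le_abs_self e
    have h6 : C1 * (p : ℝ) ^ ((m : ℝ) - 1 / 2) ≤ C1 * (p : ℝ) ^ m := by gcongr
    linarith
  obtain ⟨P, hP0, hP⟩ := exists_disc (n := 2 * m + 1) f hd hf c0 hs
  have hCZ : 0 ≤ |e| + C1 := by positivity
  have hfam := fam (f := f) (p0 := p0) P c0 hP0 hCZ hsep hzc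
  set A : ℝ := 4 + (1 + (|e| + C1)) ^ 2 + p0 + P.totalDegree + |(MvPolynomial.eval c0 P : ℝ)| with hA
  have hA1 := hfam.A0
  set β : ℝ := b + (|e| + C1) + 1 with hβ
  have hβ1 : 1 ≤ β := by rw [hβ]; linarith [show (0 : ℝ) ≤ b by positivity]
  have hβ0 : 0 ≤ β := by linarith
  set B : ℝ := 2 * β with hB
  have hB0 : 0 < B := by linarith
  have hSS := SS_nonneg
  obtain ⟨H1, hlarge⟩ := large' η (56 * B ^ 2) hη
  obtain ⟨CM, hCM, hmert⟩ := mertens_PR
  set n := Fintype.card ι with hn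
  set K1 : ℝ := (8 * B + 3) * (32 * B + 9) * (24 ^ n * 2) with hK1
  have hK10 : 0 ≤ K1 := by positivity
  set R : ℝ := 128 / η with hR
  have hR0 : 0 < R := by positivity
  set K2 : ℝ := (3 * A + β * A + C1) * SS + (b * SS + 2 * b * R) + |1 + e| * (SS + 2 * R) with hK2
  have hK20 : 0 ≤ K2 := by positivity
  set K3 : ℝ := (b + |1 + e|) * (Real.log (48 / η + 1) + CM) with hK3
  have hK30 : 0 ≤ K3 := by
    have : 0 ≤ Real.log (48 / η + 1) := Real.log_nonneg (by have : 0 < 48 / η := by positivity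
                                                            linarith)
    positivity
  refine ⟨2 * K1 + 3 ^ n * (H1 + 1) + K3 + 4 + K2, by positivity, fun H hH16 hex => ?_⟩
  have hH0 : (0 : ℝ) < H := by exact_mod_cast (by omega : 0 < H)
  have hH1' : (1 : ℝ) ≤ H := by exact_mod_cast (by omega : 1 ≤ H)
  have hHn0 : (0 : ℝ) ≤ (H : ℝ) ^ ((n : ℝ) - 1 / 2 + η) := by positivity
  by_cases hHH : H1 ≤ H
  swap
  · -- small heights
    refine ⟨Pool.Agent.Y722.HS.box ι H, Subset.rfl, ?_, fun c hc => by simp at hc⟩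
    rw [card_box]
    push Not at hHH
    have h1 : (2 * (H : ℝ) + 1) ^ n ≤ 3 ^ n * (H : ℝ) ^ n := by
      rw [← mul_pow]
      gcongr
      linarith
    have h2 : (H : ℝ) ^ n ≤ (H1 + 1) * (H : ℝ) ^ ((n : ℝ) - 1 / 2 + η) := by
      calc (H : ℝ) ^ n = (H : ℝ) ^ (n : ℝ) := (Real.rpow_natCast _ _).symm
        _ ≤ (H : ℝ) ^ (1 + ((n : ℝ) - 1 / 2 + η)) :=
            Real.rpow_le_rpow_of_exponent_le hH1' (by linarith)
        _ = (H : ℝ) * (H : ℝ) ^ ((n : ℝ) - 1 / 2 + η) := by rw [Real.rpow_add hH0, Real.rpow_one]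
        _ ≤ _ := by
            gcongr
            have : (H : ℝ) ≤ H1 := by exact_mod_cast hHH.le
            linarith
    calc (2 * (H : ℝ) + 1) ^ n ≤ 3 ^ n * (H : ℝ) ^ n := h1
      _ ≤ 3 ^ n * ((H1 + 1) * (H : ℝ) ^ ((n : ℝ) - 1 / 2 + η)) := by gcongr
      _ = (3 ^ n * (H1 + 1)) * (H : ℝ) ^ ((n : ℝ) - 1 / 2 + η) := by ring
      _ ≤ _ := by
          gcongr
          linarith
  obtain ⟨_, hl1, hl2, hl3, hl4⟩ := hlarge H hHH
  obtain ⟨J, hJ1, hJ2, hJ3, hJ4, hJ5, hJ6⟩ := powers hη hη1 hH16 hl1 hl3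
  have hLpos : 0 < Real.log H := Real.log_pos (by exact_mod_cast (by omega : 1 < H))
  have hL1 : 1 ≤ Real.log H := by
    have h1 := Real.add_one_le_exp (Real.log (Real.log H))
    rw [Real.exp_log hLpos] at h1
    linarith
  set L := Real.log H with hL
  set j0 : ℕ := ⌈48 / η * Real.log L⌉₊ with hj0
  have h48 : 48 ≤ 48 / η := by
    rw [le_div_iff₀ hη]
    linarith
  have hj0a : 48 / η * Real.log L ≤ j0 := Nat.le_ceil _
  have hj0b : (j0 : ℝ) ≤ (48 / η + 1) * Real.log L := by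
    have h1 : (j0 : ℝ) < 48 / η * Real.log L + 1 := Nat.ceil_lt_add_one (by positivity)
    linarith
  have hj02 : 2 ≤ j0 := by
    have h1 : (48 : ℝ) ≤ j0 := by nlinarith
    have h2 : 48 ≤ j0 := by exact_mod_cast h1
    omega
  set M : ℕ := ⌈8 * B * (J : ℝ) ^ 3⌉₊ + 1 with hM
  have hM1 : 8 * B * (J : ℝ) ^ 3 ≤ M := by
    have h1 := Nat.le_ceil (8 * B * (J : ℝ) ^ 3)
    rw [hM]
    push_cast
    linarith
  have hM2 : (M : ℝ) ≤ 8 * B * (J : ℝ) ^ 3 + 2 := by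
    have h1 := Nat.ceil_lt_add_one (a := 8 * B * (J : ℝ) ^ 3) (by positivity)
    rw [hM]
    push_cast
    linarith
  have hM0 : 0 < M := by omega
  set T : ℕ := ⌈(H : ℝ) ^ (η / 4)⌉₊ with hT
  have hT1 : (H : ℝ) ^ (η / 4) ≤ T := Nat.le_ceil _
  have hT2 : (T : ℝ) ≤ 2 * (H : ℝ) ^ (η / 4) := by
    have h1 := Nat.ceil_lt_add_one (a := (H : ℝ) ^ (η / 4)) (by positivity)
    have h2 : 1 ≤ (H : ℝ) ^ (η / 4) := Real.one_le_rpow hH1' (by positivity)
    linarith
  -- the two families are good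
  have hgood1 : Good (cen (hN f P p0)) B J := by
    refine good_cen hβ0 fun j hj p hp z => ?_
    have hpp := (mem_blk.mp hp).2
    haveI := Fact.mk hpp
    have h1 : p ≤ H := by
      calc p ≤ 2 ^ (j + 1) := (mem_blk.mp hp).1.2
        _ ≤ 2 ^ J := Nat.pow_le_pow_right (by norm_num) hj
        _ ≤ H := hJ3
    obtain ⟨c, hc, rfl⟩ := exists_red (ι := ι) hpp.pos h1 z
    obtain ⟨α, hα⟩ := hex c hc
    exact NN_le P hP hzc hα p
  have hgood2 : Good (cen (gB P p0 β)) B J := by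
    refine good_cen hβ0 fun j hj p hp z => ?_
    rw [abs_of_nonneg (gB_nonneg P p0 hβ0 p z)]
    exact gB_le P p0 hβ0 p z
  have hV : ∀ j ∈ Ico j0 J, (56 * B ^ 2 * kL H j * (j : ℝ) ^ 4) ^ kL H j ≤ (H : ℝ) ^ (η / 4) := by
    intro j hj
    have hjm := mem_Ico.mp hj
    refine pow_bound' hη (by positivity) hH16 (by omega) hL1 hl2 ?_ ?_
    · have : (j : ℝ) ≤ J := by exact_mod_cast hjm.2.le
      linarith
    · have : (j0 : ℝ) ≤ j := by exact_mod_cast hjm.1
      linarith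
  have hcard : ∀ h : ∀ p : ℕ, (ι → ZMod p) → ℝ, Good h B J →
      ((Ex (ι := ι) h H j0 J M T).card : ℝ) ≤ K1 * (H : ℝ) ^ ((n : ℝ) - 1 / 2 + η) := by
    intro h hg
    refine (card_Ex hg hB0 (by omega) (by omega) hJ2 (by positivity) hV).trans ?_
    exact size' hH1' hη hB0.le (hJ4.trans hl4) hM2 hT2 hJ1 n
  refine ⟨Ex (cen (hN f P p0)) H j0 J M T ∪ Ex (cen (gB P p0 β)) H j0 J M T, ?_, ?_, ?_⟩
  · apply union_subset <;> exact filter_subset _ _
  · have h1 := hcard _ hgood1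
    have h2 := hcard _ hgood2
    have h3 := card_union_le (Ex (cen (hN f P p0)) H j0 J M T) (Ex (cen (gB P p0 β)) H j0 J M T)
    have h4 : ((Ex (cen (hN f P p0)) H j0 J M T ∪ Ex (cen (gB P p0 β)) H j0 J M T).card : ℝ) ≤
        (Ex (cen (hN f P p0)) H j0 J M T).card + (Ex (cen (gB P p0 β)) H j0 J M T).card := by
      exact_mod_cast h3
    calc _ ≤ 2 * K1 * (H : ℝ) ^ ((n : ℝ) - 1 / 2 + η) := by linarith
      _ ≤ _ := by
          gcongr
          have : (0 : ℝ) ≤ 3 ^ n * (H1 + 1) := by positivity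
          linarith
  · intro c hc α hα ε τ hε0 hε1 hτ
    rw [mem_sdiff, mem_union, not_or] at hc
    obtain ⟨hcb, hc1, hc2⟩ := hc
    have hεp : 0 < ε := lt_of_lt_of_le (by positivity) hε0
    have h1 := block_small hgood1 hB0 (by omega) hM0 hM1 hcb hc1 hεp.le hε1 (hτ.trans hT1)
    have h2 := block_small hgood2 hB0 (by omega) hM0 hM1 hcb hc2 (ε := 0) (τ := 0) le_rfl zero_le_one
      (by simp)
    have h2' : ∑ j ∈ Ico j0 J, |Zr (cen (gB P p0 β)) j c 0| ≤ 2 := by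
      simpa using h2
    have hRR : 16 / (ε * Real.log ((2 ^ J : ℕ) + 1)) ≤ R := by
      have h3 : η / 8 ≤ ε * Real.log ((2 ^ J : ℕ) + 1) := by
        have h4 : 1 ≤ ε * L := by
          rw [div_le_iff₀ hLpos] at hε0
          exact hε0
        calc η / 8 = η / 8 * 1 := by ring
          _ ≤ η / 8 * (ε * L) := by gcongr
          _ = ε * (η / 8 * L) := by ring
          _ ≤ _ := by gcongr
      calc 16 / (ε * Real.log ((2 ^ J : ℕ) + 1)) ≤ 16 / (η / 8) := by gcongr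
        _ = R := by rw [hR]; field_simp; norm_num
    have h3 := member (p0 := p0) P hP hC1 e hZ1 hzc hfam hβ c α hα ε τ hεp hε1 hJ5 hRR
    have hs1 : ss (2 * m + 1) ε = (m : ℂ) + 1 + ε := by
      unfold ss
      push_cast
      ring
    rw [hs1] at h3
    have h4 : ∑ p ∈ PR (2 ^ j0), (1 : ℝ) / p ≤ Real.log (Real.log L) + Real.log (48 / η + 1) + CM := by
      have h5 : 3 ≤ 2 ^ j0 := by
        calc 3 ≤ 2 ^ 2 := by norm_num
          _ ≤ 2 ^ j0 := Nat.pow_le_pow_right (by norm_num) hj02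
      refine (hmert _ h5).trans ?_
      have h6 : Real.log (Real.log ((2 ^ j0 : ℕ) : ℝ)) ≤ Real.log (Real.log L) + Real.log (48 / η + 1) := by
        have h7 : Real.log ((2 ^ j0 : ℕ) : ℝ) = j0 * Real.log 2 := by
          push_cast
          rw [Real.log_pow]
        have h8 : 0 < Real.log 2 := Real.log_pos (by norm_num)
        have h9 : (j0 : ℝ) * Real.log 2 ≤ Real.log L * (48 / η + 1) := by
          have := Real.log_two_lt_d9
          calc (j0 : ℝ) * Real.log 2 ≤ j0 * 1 := by gcongr; linarith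
            _ ≤ _ := by linarith
        have h10 : (0 : ℝ) < j0 := by exact_mod_cast (by omega : 0 < j0)
        have h11 : 0 < Real.log L := by linarith
        have h12 : 0 < 48 / η + 1 := by linarith
        rw [h7, ← Real.log_mul h11.ne' h12.ne']
        exact Real.log_le_log (by positivity) h9
      linarith
    refine h3.trans ?_
    have h5 : (b + |1 + e|) * ∑ p ∈ PR (2 ^ j0), (1 : ℝ) / p ≤
        (b + |1 + e|) * (Real.log (Real.log L) + Real.log (48 / η + 1) + CM) := by gcongr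
    have h6 : (b + |1 + e|) * (Real.log (Real.log L) + Real.log (48 / η + 1) + CM) =
        (b + |1 + e|) * Real.log (Real.log L) + K3 := by rw [hK3]; ring
    have h7 : (0 : ℝ) ≤ 3 ^ n * (H1 + 1) := by positivity
    linarith

end Pool.Agent.H11.PS
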